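import Pool.Agent.Helper75.Tile.Sup

set_option autoImplicit false

/-!
# Band-limited weights
-/

namespace Pool.Agent.Helper75.Tile

open MeasureTheory Set Filter Topology Complex
open scoped ENNReal NNReal

/-- Multiplying `D` by `χ` and a character of frequency at most `τ` gives a function whose iterates
decay like `q ^ n` in sup norm. -/
def PB (μ μ' κ : Measure ℝ) (D : ℝ → ℝ) (q τ : ℝ) (χ : ℝ → ℂ) : Prop :=
  Bd χ ∧ ∃ C0, ∀ t, |t| ≤ τ → ∀ n x,
    ‖Phi μ μ' κ n (fun x => (D x : ℂ) * χ x * ch t x) x‖ ≤ C0 * q ^ n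

variable {μ μ' κ : Measure ℝ} [IsFiniteMeasure μ] [IsFiniteMeasure μ'] [IsFiniteMeasure κ]
  {D : ℝ → ℝ} {q τ : ℝ} {χ χ' : ℝ → ℂ}

theorem ch_meas (t : ℝ) : Measurable (ch t) :=
  ch_measurable.comp (measurable_const.prodMk measurable_id)

theorem bd_prod {Cd : ℝ} (hD : Measurable D) (hb : ∀ x, |D x| ≤ Cd) (hχ : Bd χ) (t : ℝ) :
    Bd (fun x => (D x : ℂ) * χ x * ch t x) := by
  obtain ⟨hm, c, hc⟩ := hχ
  refine ⟨((measurable_ofReal.comp hD).mul hm).mul (ch_meas t), Cd * c, fun x => ?_⟩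
  rw [norm_mul, norm_mul, norm_ch, mul_one, Complex.norm_real, Real.norm_eq_abs]
  have h0 : 0 ≤ Cd := (abs_nonneg _).trans (hb 0)
  exact mul_le_mul (hb x) (hc x) (norm_nonneg _) h0

theorem PB_one {Cd w : ℝ} (hD : Measurable D) (hb : ∀ x, |D x| ≤ Cd)
    (h0 : ∀ x, ∫ y, D (x - y) ∂μ = 0) (hκ : κ.real univ = 1)
    (hw : ∀ t, |t| ≤ τ → ∫ y, ‖ch (-t) y - 1‖ ∂μ ≤ w) :
    PB μ μ' κ D (μ'.real univ * w) τ (fun _ => 1) := by
  refine ⟨⟨measurable_const, 1, fun x => by simp⟩, Cd, fun t ht n x => ?_⟩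
  have hK : InK μ t Cd (fun x => (D x : ℂ) * 1 * ch t x) := by
    refine ⟨fun x => (D x : ℂ), measurable_ofReal.comp hD, fun x => ?_, fun x => ?_, ?_⟩
    · rw [Complex.norm_real, Real.norm_eq_abs]
      exact hb x
    · change ∫ y, ((D (x - y) : ℝ) : ℂ) ∂μ = 0
      rw [integral_complex_ofReal, h0 x, ofReal_zero]
    · funext x
      ring
  exact (hK.iter hκ (hw t ht) n).norm_le x

omit [IsFiniteMeasure μ] [IsFiniteMeasure μ'] [IsFiniteMeasure κ] in
theorem PB.mono {τ' : ℝ} (h : PB μ μ' κ D q τ χ) (hτ : τ' ≤ τ) : PB μ μ' κ D q τ' χ := by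
  obtain ⟨h1, C0, h2⟩ := h
  exact ⟨h1, C0, fun t ht => h2 t (ht.trans hτ)⟩

theorem PB.add {Cd : ℝ} (hD : Measurable D) (hb : ∀ x, |D x| ≤ Cd)
    (h : PB μ μ' κ D q τ χ) (h' : PB μ μ' κ D q τ χ') :
    PB μ μ' κ D q τ (fun x => χ x + χ' x) := by
  obtain ⟨h1, C0, h2⟩ := h
  obtain ⟨h1', C0', h2'⟩ := h'
  refine ⟨h1.add h1', C0 + C0', fun t ht n x => ?_⟩
  have e : (fun x => (D x : ℂ) * (χ x + χ' x) * ch t x) =
      fun x => (D x : ℂ) * χ x * ch t x + (D x : ℂ) * χ' x * ch t x := by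
    funext x
    ring
  rw [e, Phi_add (bd_prod hD hb h1 t) (bd_prod hD hb h1' t)]
  calc _ ≤ _ := norm_add_le _ _
    _ ≤ C0 * q ^ n + C0' * q ^ n := add_le_add (h2 t ht n x) (h2' t ht n x)
    _ = _ := by ring

theorem PB.smul (h : PB μ μ' κ D q τ χ) (a : ℂ) :
    PB μ μ' κ D q τ (fun x => a * χ x) := by
  obtain ⟨⟨hm, c, hc⟩, C0, h2⟩ := h
  refine ⟨⟨hm.const_mul a, ‖a‖ * c, fun x => ?_⟩, ‖a‖ * C0, fun t ht n x => ?_⟩
  · rw [norm_mul]
    exact mul_le_mul_of_nonneg_left (hc x) (norm_nonneg _)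
  have e : (fun x => (D x : ℂ) * (a * χ x) * ch t x) =
      fun x => a • ((D x : ℂ) * χ x * ch t x) := by
    funext x
    simp only [smul_eq_mul]
    ring
  rw [e, Phi_smul]
  simp only [smul_eq_mul, norm_mul]
  rw [mul_assoc]
  exact mul_le_mul_of_nonneg_left (h2 t ht n x) (norm_nonneg _)

omit [IsFiniteMeasure μ] [IsFiniteMeasure μ'] [IsFiniteMeasure κ] in
theorem PB.mul_ch (h : PB μ μ' κ D q τ χ) (s : ℝ) :
    PB μ μ' κ D q (τ - |s|) (fun x => χ x * ch s x) := by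
  obtain ⟨⟨hm, c, hc⟩, C0, h2⟩ := h
  refine ⟨⟨hm.mul (ch_meas s), c, fun x => ?_⟩, C0, fun t ht n x => ?_⟩
  · rw [norm_mul, norm_ch, mul_one]
    exact hc x
  have e : (fun x => (D x : ℂ) * (χ x * ch s x) * ch t x) =
      fun x => (D x : ℂ) * χ x * ch (s + t) x := by
    funext x
    rw [ch_add]
    ring
  rw [e]
  refine h2 (s + t) ?_ n x
  calc |s + t| ≤ |s| + |t| := abs_add_le _ _
    _ ≤ τ := by linarith

theorem PB.mul_cos {Cd : ℝ} (hD : Measurable D) (hb : ∀ x, |D x| ≤ Cd)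
    (h : PB μ μ' κ D q τ χ) {a : ℝ} (ha : 0 ≤ a) (c : ℝ) :
    PB μ μ' κ D q (τ - a) (fun x => χ x * ((Real.cos (a * (x - c)) : ℝ) : ℂ)) := by
  have h1 := (h.mul_ch a).smul (ch a (-c) / 2)
  have h2 := (h.mul_ch (-a)).smul (ch (-a) (-c) / 2)
  rw [abs_neg] at h2
  rw [abs_of_nonneg ha] at h1 h2
  have h3 := PB.add hD hb h1 h2
  convert h3 using 1
  funext x
  have e1 : ch a x * ch a (-c) = cexp (((a * (x - c) : ℝ) : ℂ) * I) := by
    unfold ch
    rw [← Complex.exp_add]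
    congr 1
    push_cast
    ring
  have e2 : ch (-a) x * ch (-a) (-c) = cexp (-((a * (x - c) : ℝ) : ℂ) * I) := by
    unfold ch
    rw [← Complex.exp_add]
    congr 1
    push_cast
    ring
  rw [Complex.ofReal_cos, Complex.cos]
  rw [← e1, ← e2]
  ring

theorem integral_ch_sinc (a : ℝ) :
    ∫ u in Icc (-1 : ℝ) 1, (1 / 2 : ℂ) * ch (a * u) 1 = ((Real.sinc a : ℝ) : ℂ) := by
  rw [integral_Icc_eq_integral_Ioc, ← intervalIntegral.integral_of_le (by norm_num)]
  by_cases ha : a = 0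
  · subst ha
    simp [ch]
    norm_num
  rw [Real.sinc_of_ne_zero ha]
  have hc : (a : ℂ) * I ≠ 0 := by
    simp [ha]
  have e : ∀ u : ℝ, (1 / 2 : ℂ) * ch (a * u) 1 = (1 / 2 : ℂ) * cexp ((a : ℂ) * I * u) := by
    intro u
    unfold ch
    congr 2
    push_cast
    ring
  simp_rw [e]
  rw [intervalIntegral.integral_const_mul, integral_exp_mul_complex hc]
  have e3 : ((Real.sin a / a : ℝ) : ℂ) = Complex.sin a / a := by push_cast; rfl
  rw [e3, Complex.sin]
  have ha' : (a : ℂ) ≠ 0 := by exact_mod_cast ha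
  have e4 : (a : ℂ) * I * ((1 : ℝ) : ℂ) = a * I := by push_cast; ring
  have e5 : (a : ℂ) * I * ((-1 : ℝ) : ℂ) = -a * I := by push_cast; ring
  rw [e4, e5]
  field_simp
  rw [I_sq]
  ring

theorem PB.mul_sinc {Cd : ℝ} (hD : Measurable D) (hb : ∀ x, |D x| ≤ Cd)
    (h : PB μ μ' κ D q τ χ) {a : ℝ} (ha : 0 ≤ a) (hτ : a ≤ τ) (c : ℝ) :
    PB μ μ' κ D q (τ - a) (fun x => χ x * ((Real.sinc (a * (x - c)) : ℝ) : ℂ)) := by
  obtain ⟨⟨hm, cχ, hc⟩, C0, h2⟩ := h
  have hCd : 0 ≤ Cd := (abs_nonneg _).trans (hb 0)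
  have hcχ : 0 ≤ cχ := (norm_nonneg _).trans (hc 0)
  refine ⟨⟨?_, cχ, fun x => ?_⟩, C0, fun t ht n x => ?_⟩
  · have : Measurable (fun x : ℝ => Real.sinc (a * (x - c))) := by
      apply Real.continuous_sinc.measurable.comp
      fun_prop
    exact hm.mul (measurable_ofReal.comp this)
  · rw [norm_mul, Complex.norm_real, Real.norm_eq_abs]
    calc ‖χ x‖ * |Real.sinc (a * (x - c))| ≤ cχ * 1 :=
          mul_le_mul (hc x) (Real.abs_sinc_le_one _) (abs_nonneg _) hcχ
      _ = cχ := mul_one _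
  set ρ : Measure ℝ := volume.restrict (Icc (-1 : ℝ) 1) with hρ
  let F : ℝ × ℝ → ℂ := fun p => ((1 / 2 : ℂ) * ch (a * p.1) (-c)) *
    ((D p.2 : ℂ) * χ p.2 * ch (t + a * p.1) p.2)
  have hFm : Measurable F := by
    have m1 : Measurable (fun p : ℝ × ℝ => ch (a * p.1) (-c)) :=
      ch_measurable.comp ((measurable_const.mul measurable_fst).prodMk measurable_const)
    have m2 : Measurable (fun p : ℝ × ℝ => ch (t + a * p.1) p.2) :=
      ch_measurable.comp ((measurable_const.add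
        (measurable_const.mul measurable_fst)).prodMk measurable_snd)
    have m3 : Measurable (fun p : ℝ × ℝ => (D p.2 : ℂ) * χ p.2) :=
      ((measurable_ofReal.comp hD).comp measurable_snd).mul (hm.comp measurable_snd)
    exact (measurable_const.mul m1).mul (m3.mul m2)
  have hFb : ∀ p, ‖F p‖ ≤ 1 / 2 * (Cd * cχ) := by
    intro p
    simp only [F, norm_mul, norm_ch, mul_one, Complex.norm_real, Real.norm_eq_abs]
    have : ‖(1 / 2 : ℂ)‖ = 1 / 2 := by simp
    rw [this]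
    apply mul_le_mul_of_nonneg_left _ (by norm_num)
    exact mul_le_mul (hb _) (hc _) (norm_nonneg _) hCd
  have e : (fun x => (D x : ℂ) * (χ x * ((Real.sinc (a * (x - c)) : ℝ) : ℂ)) * ch t x) =
      fun x => ∫ u, F (u, x) ∂ρ := by
    funext x
    rw [← integral_ch_sinc (a * (x - c))]
    have : ∀ u, F (u, x) = ((D x : ℂ) * χ x * ch t x) *
        ((1 / 2 : ℂ) * ch (a * (x - c) * u) 1) := by
      intro u
      simp only [F]
      have : ch (a * u) (-c) * ch (t + a * u) x = ch t x * ch (a * (x - c) * u) 1 := by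
        unfold ch
        rw [← Complex.exp_add, ← Complex.exp_add]
        congr 1
        push_cast
        ring
      calc _ = (1 / 2 : ℂ) * ((D x : ℂ) * χ x) * (ch (a * u) (-c) * ch (t + a * u) x) := by ring
        _ = _ := by rw [this]; ring
    have e9 : ∫ u, F (u, x) ∂ρ = ((D x : ℂ) * χ x * ch t x) *
        ∫ u, (1 / 2 : ℂ) * ch (a * (x - c) * u) 1 ∂ρ := by
      rw [← integral_const_mul]
      exact integral_congr_ae (ae_of_all _ this)
    rw [e9]
    ring
  rw [e, Phi_integral hFm hFb]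
  have hFu : ∀ u, Phi μ μ' κ n (fun x => F (u, x)) x =
      ((1 / 2 : ℂ) * ch (a * u) (-c)) *
        Phi μ μ' κ n (fun x => (D x : ℂ) * χ x * ch (t + a * u) x) x := by
    intro u
    have : (fun x => F (u, x)) = fun x => ((1 / 2 : ℂ) * ch (a * u) (-c)) •
        ((D x : ℂ) * χ x * ch (t + a * u) x) := by
      funext x
      simp only [F, smul_eq_mul]
    rw [this, Phi_smul]
    simp only [smul_eq_mul]
  simp_rw [hFu]
  have hC0 : 0 ≤ C0 := by
    have := h2 0 (by rw [abs_zero]; linarith) 0 0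
    rw [pow_zero, mul_one] at this
    exact (norm_nonneg _).trans this
  have hb2 : ∀ᵐ u ∂ρ, ‖((1 / 2 : ℂ) * ch (a * u) (-c)) *
        Phi μ μ' κ n (fun x => (D x : ℂ) * χ x * ch (t + a * u) x) x‖ ≤ 1 / 2 * (C0 * q ^ n) := by
    rw [hρ]
    refine (ae_restrict_mem measurableSet_Icc).mono fun u hu => ?_
    rw [norm_mul, norm_mul, norm_ch, mul_one]
    have e1 : ‖(1 / 2 : ℂ)‖ = 1 / 2 := by simp
    rw [e1]
    apply mul_le_mul_of_nonneg_left _ (by norm_num)
    apply h2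
    have hu' : |u| ≤ 1 := abs_le.mpr hu
    calc |t + a * u| ≤ |t| + |a * u| := abs_add_le _ _
      _ ≤ |t| + a * 1 := by
          rw [abs_mul, abs_of_nonneg ha]
          have := mul_le_mul_of_nonneg_left hu' ha
          linarith
      _ ≤ τ := by linarith
  have hfin : ρ.real univ = 2 := by
    rw [hρ]
    simp [Measure.real]
    norm_num
  calc _ ≤ 1 / 2 * (C0 * q ^ n) * ρ.real univ := norm_integral_le_of_norm_le_const hb2
    _ = C0 * q ^ n := by rw [hfin]; ring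

/-- The weights are admissible. -/
theorem PB_wt {Cd : ℝ} (hD : Measurable D) (hb : ∀ x, |D x| ≤ Cd) {σ : ℝ}
    (hσ : 0 < σ) (h : PB μ μ' κ D q (3 * σ) (fun _ => 1)) {k : ℕ} (hk : 1 ≤ k) (c : ℝ) :
    PB μ μ' κ D q 0 (fun x => ((wt k (σ / k * (x - c)) : ℝ) : ℂ)) := by
  have hk' : (0 : ℝ) < k := by exact_mod_cast hk
  have ha : 0 ≤ σ / k := by positivity
  have hka : (k : ℝ) * (σ / k) = σ := by field_simp
  -- powers of sinc
  have hs : ∀ j : ℕ, j ≤ 2 * k →
      PB μ μ' κ D q (3 * σ - j * (σ / k))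
        (fun x => (((Real.sinc (σ / k * (x - c))) ^ j : ℝ) : ℂ)) := by
    intro j
    induction j with
    | zero => intro _; simpa using h
    | succ j ih =>
      intro hj
      have h1 := ih (by omega)
      have hle : σ / k ≤ 3 * σ - j * (σ / k) := by
        have : ((j : ℝ) + 1) * (σ / k) ≤ (2 * k) * (σ / k) := by
          apply mul_le_mul_of_nonneg_right _ ha
          exact_mod_cast hj
        have e : (2 * (k : ℝ)) * (σ / k) = 2 * σ := by rw [mul_assoc, hka]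
        rw [e] at this
        nlinarith
      have h2 := h1.mul_sinc hD hb ha hle c
      convert h2 using 1
      · push_cast
        ring
      · funext x
        push_cast
        ring
  have hS := hs (2 * k) le_rfl
  have e0 : 3 * σ - ((2 * k : ℕ) : ℝ) * (σ / k) = σ := by
    push_cast
    rw [mul_assoc, hka]
    ring
  rw [e0] at hS
  -- Chebyshev factors
  have ht : ∀ j : ℕ, j + 1 ≤ k →
      PB μ μ' κ D q (σ - j * (σ / k))
        (fun x => (((Polynomial.Chebyshev.T ℝ j).eval (1 + Real.cos (σ / k * (x - c))) *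
          (Real.sinc (σ / k * (x - c))) ^ (2 * k) : ℝ) : ℂ)) ∧
      PB μ μ' κ D q (σ - (j + 1 : ℕ) * (σ / k))
        (fun x => (((Polynomial.Chebyshev.T ℝ (j + 1 : ℕ)).eval
          (1 + Real.cos (σ / k * (x - c))) *
          (Real.sinc (σ / k * (x - c))) ^ (2 * k) : ℝ) : ℂ)) := by
    intro j
    induction j with
    | zero =>
      intro _
      constructor
      · simpa using hS
      · have h2 := hS.mul_cos hD hb ha c
        have h3 := PB.add hD hb (hS.mono (sub_le_self σ ha)) h2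
        convert h3 using 1
        · simp
        · funext x
          simp
          ring
    | succ j ih =>
      intro hj
      obtain ⟨h1, h2⟩ := ih (by omega)
      refine ⟨h2, ?_⟩
      have h3 := h2.mul_cos hD hb ha c
      have e1 : σ - ((j + 1 : ℕ) : ℝ) * (σ / k) - σ / k = σ - ((j + 1 + 1 : ℕ) : ℝ) * (σ / k) := by
        push_cast
        ring
      rw [e1] at h3
      have h4 := h2.mono (τ' := σ - ((j + 1 + 1 : ℕ) : ℝ) * (σ / k)) (by push_cast; nlinarith)
      have h5 := h1.mono (τ' := σ - ((j + 1 + 1 : ℕ) : ℝ) * (σ / k)) (by push_cast; nlinarith)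
      have h6 := PB.add hD hb ((PB.add hD hb h4 h3).smul 2) (h5.smul (-1))
      convert h6 using 1
      funext x
      have e2 : (Polynomial.Chebyshev.T ℝ ((j + 1 + 1 : ℕ) : ℤ)) =
          2 * Polynomial.X * Polynomial.Chebyshev.T ℝ ((j + 1 : ℕ) : ℤ) -
            Polynomial.Chebyshev.T ℝ (j : ℤ) := by
        have := Polynomial.Chebyshev.T_add_two ℝ (j : ℤ)
        push_cast
        rw [← this]
        congr 1
      rw [e2]
      simp only [Polynomial.eval_sub, Polynomial.eval_mul, Polynomial.eval_X,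
        Polynomial.eval_ofNat]
      push_cast
      ring
  obtain ⟨j, rfl⟩ : ∃ j, k = j + 1 := ⟨k - 1, by omega⟩
  have h7 := (ht j le_rfl).2
  have e3 : σ - ((j + 1 : ℕ) : ℝ) * (σ / ((j + 1 : ℕ) : ℝ)) = 0 := by
    rw [hka]
    ring
  rw [e3] at h7
  exact h7

end Pool.Agent.Helper75.Tile
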