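import Pool.Agent.Helper75.Tile.Spec

set_option autoImplicit false

/-!
# Lower bounds for functions concentrated near a tiling set
-/

namespace Pool.Agent.Helper75.Tile

open MeasureTheory Set Filter Topology
open scoped ENNReal NNReal

theorem spec_of_PB {μ κ : Measure ℝ} [IsFiniteMeasure μ] [IsFiniteMeasure κ] {D χ : ℝ → ℝ}
    {Cd q : ℝ} (hD : Measurable D) (hb : ∀ x, |D x| ≤ Cd) (hχ : Nice χ) (hq : 0 ≤ q)
    (h : PB μ (μ.map (fun y => -y)) κ D q 0 (fun x => ((χ x : ℝ) : ℂ))) :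
    ∫ x, T μ (T κ (fun x => D x * χ x)) x ^ 2 ≤ q * ∫ x, T κ (fun x => D x * χ x) x ^ 2 := by
  obtain ⟨-, C0, hC0⟩ := h
  have hfin : IsFiniteMeasure (μ.map (fun y => -y)) := by infer_instance
  have hDχ : Nice (fun x => D x * χ x) := by
    obtain ⟨⟨hm, c, hc⟩, hi⟩ := hχ
    refine ⟨⟨hD.mul hm, Cd * c, fun x => ?_⟩, ?_⟩
    · rw [norm_mul]
      exact mul_le_mul (hb x) (hc x) (norm_nonneg _) ((abs_nonneg _).trans (hb 0))
    · exact hi.bdd_mul (c := Cd) hD.aestronglyMeasurable (ae_of_all _ hb)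
  have hT : ∀ (ν : Measure ℝ) (g : ℝ → ℝ),
      T ν (fun x => ((g x : ℝ) : ℂ)) = fun x => ((T ν g x : ℝ) : ℂ) := by
    intro ν g
    funext x
    unfold T
    exact integral_complex_ofReal
  have hit : ∀ n, Phi μ (μ.map (fun y => -y)) κ n (fun x => (D x : ℂ) * ((χ x : ℝ) : ℂ) * ch 0 x) =
      fun x => (((fun h => T (μ.map (fun y => -y)) (T μ h))^[n]
        (T κ (fun x => D x * χ x)) x : ℝ) : ℂ) := by
    intro n
    induction n with
    | zero =>
      rw [Phi_zero]
      have : (fun x => (D x : ℂ) * ((χ x : ℝ) : ℂ) * ch 0 x) =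
          fun x => ((D x * χ x : ℝ) : ℂ) := by
        funext x
        rw [ch_zero]
        push_cast
        ring
      rw [this, hT]
      rfl
    | succ n ih =>
      rw [Phi_succ, ih, hT, hT]
      simp only [Function.iterate_succ_apply']
  apply spec_ineq hDχ.conv hq (C0 := C0)
  intro n x
  have := hC0 0 (by simp) n x
  rw [hit n, Complex.norm_real] at this
  exact this

theorem sq_integral_le {ν : Measure ℝ} [IsFiniteMeasure ν] {f : ℝ → ℝ} (hf : Bd f) :
    (∫ x, f x ∂ν) ^ 2 ≤ ν.real univ * ∫ x, f x ^ 2 ∂ν := by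
  obtain ⟨hm, c, hc⟩ := hf
  have h1 : Integrable f ν := Integrable.of_bound hm.aestronglyMeasurable c (ae_of_all _ hc)
  have h2 : Integrable (fun x => f x ^ 2) ν := by
    refine Integrable.of_bound (hm.pow_const 2).aestronglyMeasurable (c ^ 2) (ae_of_all _ ?_)
    intro x
    rw [norm_pow]
    exact pow_le_pow_left₀ (norm_nonneg _) (hc x) 2
  have key : ∀ t : ℝ, 0 ≤ ν.real univ * (t * t) + (-2 * ∫ x, f x ∂ν) * t +
      ∫ x, f x ^ 2 ∂ν := by
    intro t
    have : ν.real univ * (t * t) + (-2 * ∫ x, f x ∂ν) * t + ∫ x, f x ^ 2 ∂ν =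
        ∫ x, (f x - t) ^ 2 ∂ν := by
      have e : (fun x => (f x - t) ^ 2) =
          fun x => (t * t) + (-2 * t) * f x + f x ^ 2 := by
        funext x
        ring
      have i0 : Integrable (fun _ : ℝ => t * t) ν := integrable_const _
      have i1 : Integrable (fun x => (-2 * t) * f x) ν := h1.const_mul _
      have i2 : Integrable (fun x => (t * t) + (-2 * t) * f x) ν := i0.add i1
      have i3 : ∫ x, (-2 * t) * f x ∂ν = (-2 * t) * ∫ x, f x ∂ν := integral_const_mul _ _
      rw [e, integral_add i2 h2, integral_add i0 i1, i3, integral_const,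
        smul_eq_mul]
      ring
    rw [this]
    exact integral_nonneg fun x => sq_nonneg _
  have := discrim_le_zero key
  unfold discrim at this
  nlinarith

theorem Bd.sq {g : ℝ → ℝ} (hg : Bd g) : Bd (fun x => g x ^ 2) := by
  obtain ⟨hm, c, hc⟩ := hg
  refine ⟨hm.pow_const 2, c ^ 2, fun x => ?_⟩
  rw [norm_pow]
  exact pow_le_pow_left₀ (norm_nonneg _) (hc x) 2

theorem integral_T {ν : Measure ℝ} [IsFiniteMeasure ν] {g : ℝ → ℝ} (hg : Nice g) :
    ∫ x, T ν g x = ν.real univ * ∫ x, g x := by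
  unfold T
  rw [integral_integral_swap hg.prod_integrable]
  have : ∀ y, ∫ x, g (x - y) = ∫ x, g x := fun y => integral_sub_right_eq_self g y
  simp only [this, integral_const, smul_eq_mul]

theorem l2_le {ν : Measure ℝ} [IsFiniteMeasure ν] {g : ℝ → ℝ} (hg : Nice g) :
    ∫ x, T ν g x ^ 2 ≤ ν.real univ ^ 2 * ∫ x, g x ^ 2 := by
  have hsq : Nice (fun x => g x ^ 2) := ⟨hg.1.sq, hg.sq⟩
  calc ∫ x, T ν g x ^ 2 ≤ ∫ x, ν.real univ * T ν (fun x => g x ^ 2) x := by
        apply integral_mono hg.conv.sq (hsq.conv.2.const_mul _)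
        intro x
        have h1 : Bd (fun y => g (x - y)) := by
          obtain ⟨hm, c, hc⟩ := hg.1
          exact ⟨hm.comp (measurable_const.sub measurable_id), c, fun y => hc _⟩
        exact sq_integral_le h1
    _ = _ := by
        rw [integral_const_mul, integral_T hsq]
        ring

/-- The averaging measure. -/
noncomputable def kap (r : ℝ) : Measure ℝ := (ENNReal.ofReal (1 / r)) • volume.restrict (Icc 0 r)

instance (r : ℝ) : IsFiniteMeasure (kap r) := by
  unfold kap
  constructor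
  simp only [Measure.smul_apply, MeasurableSet.univ, Measure.restrict_apply, univ_inter,
    Real.volume_Icc, smul_eq_mul]
  exact ENNReal.mul_lt_top ENNReal.ofReal_lt_top ENNReal.ofReal_lt_top

theorem kap_univ {r : ℝ} (hr : 0 < r) : (kap r).real univ = 1 := by
  unfold kap
  simp only [Measure.real, Measure.smul_apply, MeasurableSet.univ, Measure.restrict_apply,
    univ_inter, Real.volume_Icc, smul_eq_mul, sub_zero]
  rw [← ENNReal.ofReal_mul (by positivity)]
  rw [ENNReal.toReal_ofReal (by positivity)]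
  field_simp

theorem T_kap {r : ℝ} (hr : 0 < r) (g : ℝ → ℝ) (x : ℝ) :
    T (kap r) g x = (1 / r) * ∫ y in Icc 0 r, g (x - y) := by
  unfold T kap
  rw [integral_smul_measure, ENNReal.toReal_ofReal (by positivity), smul_eq_mul]

theorem T_kap_nonneg {r : ℝ} (hr : 0 < r) {g : ℝ → ℝ} (hg : ∀ x, 0 ≤ g x) (x : ℝ) :
    0 ≤ T (kap r) g x := by
  rw [T_kap hr]
  exact mul_nonneg (by positivity) (integral_nonneg fun y => hg _)

theorem T_kap_le {r : ℝ} (hr : 0 < r) {g : ℝ → ℝ} (hg : Nice g) (h0 : ∀ x, 0 ≤ g x) (x : ℝ) :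
    T (kap r) g x ≤ (∫ y, g y) / r := by
  rw [T_kap hr]
  have e9 : (∫ y, g y) / r = (1 / r) * ∫ y, g y := by ring
  rw [e9]
  apply mul_le_mul_of_nonneg_left _ (by positivity)
  have h1 : Integrable (fun y => g (x - y)) := hg.2.comp_sub_left x
  calc ∫ y in Icc 0 r, g (x - y) ≤ ∫ y, g (x - y) :=
        setIntegral_le_integral h1 (ae_of_all _ fun y => h0 _)
    _ = ∫ y, g y := integral_sub_left_eq_self g volume x

/-- Cells. -/
def cell (r b : ℝ) : Set ℝ := Icc (b - r) (b + 2 * r)

theorem T_kap_supp {r b : ℝ} (hr : 0 < r) {g : ℝ → ℝ} (hg : ∀ x, r < |x - b| → g x = 0) {x : ℝ}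
    (hx : x ∉ cell r b) : T (kap r) g x = 0 := by
  rw [T_kap hr]
  have : ∫ y in Icc 0 r, g (x - y) = 0 := by
    apply setIntegral_eq_zero_of_forall_eq_zero
    intro y hy
    apply hg
    simp only [cell, mem_Icc, not_and_or, not_le] at hx hy
    rcases hx with h | h
    · rw [lt_abs]
      right
      linarith [hy.1]
    · rw [lt_abs]
      left
      linarith [hy.2]
  rw [this, mul_zero]

end Pool.Agent.Helper75.Tile
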