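import Pool.Agent.Helper75.Tile.Geo

set_option autoImplicit false

/-!
# Counting functions of separated sets
-/

namespace Pool.Agent.Helper75.Tile

open MeasureTheory Set Filter Topology
open scoped ENNReal NNReal

/-- Separation. -/
def Sep (d0 : ℝ) (B : Set ℝ) : Prop := ∀ b ∈ B, ∀ b' ∈ B, b ≠ b' → d0 ≤ |b - b'|

variable {B : Set ℝ} {d0 : ℝ}

theorem Sep.fin (h : Sep d0 B) (hd : 0 < d0) (x y : ℝ) : (B ∩ Ioc x y).Finite :=
  (finite_inter hd h x y).subset (inter_subset_inter_right _ Ioc_subset_Icc_self)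

theorem cnt_nonneg (B : Set ℝ) (x y : ℝ) : 0 ≤ cnt B x y := by
  unfold cnt
  positivity

theorem cnt_add (h : Sep d0 B) (hd : 0 < d0) {x y z : ℝ} (hxy : x ≤ y) (hyz : y ≤ z) :
    cnt B x z = cnt B x y + cnt B y z := by
  unfold cnt
  have e : B ∩ Ioc x z = (B ∩ Ioc x y) ∪ (B ∩ Ioc y z) := by
    rw [← inter_union_distrib_left, Ioc_union_Ioc_eq_Ioc hxy hyz]
  rw [e, Set.ncard_union_eq _ (h.fin hd _ _) (h.fin hd _ _)]
  · push_cast
    ring
  · rw [Set.disjoint_left]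
    rintro w ⟨-, hw1, hw2⟩ ⟨-, hw3, hw4⟩
    linarith

theorem one_le_cnt_iff (h : Sep d0 B) (hd : 0 < d0) {x y : ℝ} :
    1 ≤ cnt B x y ↔ ∃ b ∈ B, x < b ∧ b ≤ y := by
  unfold cnt
  have : (1 : ℤ) ≤ ((B ∩ Ioc x y).ncard : ℤ) ↔ 0 < (B ∩ Ioc x y).ncard := by omega
  rw [this, Set.ncard_pos (h.fin hd _ _)]
  constructor
  · rintro ⟨b, hb, hb2⟩
    exact ⟨b, hb, hb2.1, hb2.2⟩
  · rintro ⟨b, hb, h1, h2⟩
    exact ⟨b, hb, h1, h2⟩

theorem cnt_le_one (h : Sep d0 B) (hd : 0 < d0) {x y : ℝ} (hxy : y - x < d0) :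
    cnt B x y ≤ 1 := by
  unfold cnt
  have : (B ∩ Ioc x y).ncard ≤ 1 := by
    rw [Set.ncard_le_one (h.fin hd _ _)]
    rintro a ⟨ha, ha1, ha2⟩ b ⟨hb, hb1, hb2⟩
    by_contra hne
    have := h a ha b hb hne
    have h3 : |a - b| < d0 := by
      rw [abs_lt]
      constructor <;> linarith
    linarith
  exact_mod_cast this

theorem cnt_shift (B : Set ℝ) (t x y : ℝ) :
    cnt {z | z + t ∈ B} x y = cnt B (x + t) (y + t) := by
  unfold cnt
  congr 1
  rw [← Set.ncard_image_of_injective _ (add_left_injective t)]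
  congr 1
  ext w
  simp only [mem_image, mem_inter_iff, mem_ofPred_eq, mem_Ioc]
  constructor
  · rintro ⟨v, ⟨h1, h2, h3⟩, rfl⟩
    exact ⟨h1, by linarith, by linarith⟩
  · rintro ⟨h1, h2, h3⟩
    refine ⟨w - t, ⟨?_, by linarith, by linarith⟩, by ring⟩
    simpa using h1

theorem Sep.shift (h : Sep d0 B) (t : ℝ) : Sep d0 {z | z + t ∈ B} := by
  intro a ha b hb hne
  have := h (a + t) ha (b + t) hb (by simpa using hne)
  have e : a + t - (b + t) = a - b := by ring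
  rwa [e] at this

/-- Near any point there is no other point of the set. -/
theorem Sep.isolated (h : Sep d0 B) (p : ℝ) : ∃ δ > 0, ∀ b ∈ B, b ≠ p → δ ≤ |b - p| ∨ d0 ≤ 0 := by
  by_cases hd : 0 < d0
  swap
  · exact ⟨1, one_pos, fun b _ _ => Or.inr (not_lt.mp hd)⟩
  by_cases hex : ∃ b ∈ B, b ≠ p ∧ |b - p| < d0 / 2
  · obtain ⟨b, hb, hne, hlt⟩ := hex
    have hpos : 0 < |b - p| := abs_pos.mpr (sub_ne_zero.mpr hne)
    refine ⟨|b - p|, hpos, fun b' hb' hne' => Or.inl ?_⟩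
    by_cases heq : b = b'
    · subst heq; exact le_rfl
    · have h2 := h b hb b' hb' heq
      have h3 : |b - b'| ≤ |b - p| + |b' - p| := by
        have : b - b' = (b - p) - (b' - p) := by ring
        rw [this]
        exact abs_sub _ _
      linarith
  · push Not at hex
    exact ⟨d0 / 2, by positivity, fun b hb hne => Or.inl (hex b hb hne)⟩

end Pool.Agent.Helper75.Tile
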