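import Pool.Agent.Helper75.Tile.KeyMain

set_option autoImplicit false

/-!
# The key statement
-/

namespace Pool.Agent.Helper75.Tile

open MeasureTheory Set Filter Topology
open scoped ENNReal NNReal

variable {Ω : Set ℝ}

theorem small_char (h1 : volume Ω ≠ ∞) {w : ℝ} (hw : 0 < w) :
    ∃ σ > 0, ∀ t, |t| ≤ 3 * σ → ∫ y, ‖ch (-t) y - 1‖ ∂(volume.restrict Ω) ≤ w := by
  have hfin : IsFiniteMeasure (volume.restrict Ω) := ⟨by
    rw [Measure.restrict_apply_univ]; exact lt_top_iff_ne_top.mpr h1⟩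
  have hlim : Tendsto (fun t : ℝ => ∫ y, ‖ch (-t) y - 1‖ ∂(volume.restrict Ω)) (𝓝 0)
      (𝓝 (∫ y, (0 : ℝ) ∂(volume.restrict Ω))) := by
    apply tendsto_integral_filter_of_dominated_convergence (fun _ => (2 : ℝ))
    · refine Eventually.of_forall fun t => ?_
      exact (((ch_meas (-t)).sub measurable_const).norm).aestronglyMeasurable
    · refine Eventually.of_forall fun t => ae_of_all _ fun y => ?_
      rw [Real.norm_eq_abs, abs_of_nonneg (norm_nonneg _)]
      calc ‖ch (-t) y - 1‖ ≤ ‖ch (-t) y‖ + ‖(1 : ℂ)‖ := norm_sub_le _ _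
        _ = 2 := by rw [norm_ch, norm_one]; norm_num
    · exact integrable_const _
    · refine ae_of_all _ fun y => ?_
      have hc : Continuous (fun t : ℝ => ‖ch (-t) y - 1‖) := by
        unfold ch
        fun_prop
      have := hc.tendsto 0
      simpa [ch] using this
  rw [integral_zero] at hlim
  have h2 := (hlim.eventually (gt_mem_nhds hw))
  rw [Metric.eventually_nhds_iff] at h2
  obtain ⟨ε, hε, h3⟩ := h2
  refine ⟨ε / 6, by positivity, fun t ht => ?_⟩
  have := h3 (y := t) (by rw [Real.dist_eq, sub_zero]; linarith)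
  exact this.le

theorem weight_nice {k : ℕ} (hk : 1 ≤ k) {a : ℝ} (ha : 0 < a) (c : ℝ) :
    Nice (fun x => wt k (a * (x - c))) := by
  refine ⟨⟨?_, 4 ^ k, fun x => Helper99.Tile.abs_wt_le k _⟩, ?_⟩
  · exact (Helper99.Tile.wt_continuous k).measurable.comp (by fun_prop)
  · have h1 := (Helper99.Tile.wt_integrable hk).comp_mul_left' ha.ne'
    exact h1.comp_sub_right c

theorem weight_tail {k : ℕ} (hk : 1 ≤ k) {σ : ℝ} (hσ : 0 < σ) (c : ℝ) {R : ℝ}
    (hR : R = Real.pi * k / (2 * σ)) :
    ∫ x in (Ioo (c - R) (c + R))ᶜ, wt k (σ / k * (x - c)) ^ 2 ≤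
      (2 / Real.pi) ^ (4 * k) * (4 * Real.pi / (3 * σ)) := by
  have hk' : (0 : ℝ) < k := by exact_mod_cast hk
  have ha : 0 < σ / k := by positivity
  set S : Set ℝ := {θ : ℝ | Real.pi / 2 < |θ|} with hS
  have hSm : MeasurableSet S := measurableSet_lt measurable_const measurable_norm
  have e1 : ∀ᵐ x : ℝ, ((Ioo (c - R) (c + R))ᶜ).indicator
      (fun x => wt k (σ / k * (x - c)) ^ 2) x =
      S.indicator (fun θ => wt k θ ^ 2) (σ / k * (x - c)) := by
    have h2 : ∀ᵐ x : ℝ, x ≠ c - R ∧ x ≠ c + R := by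
      have a1 : ∀ᵐ x : ℝ, x ≠ c - R := by
        simp [ae_iff]
      have a2 : ∀ᵐ x : ℝ, x ≠ c + R := by
        simp [ae_iff]
      exact a1.and a2
    refine h2.mono fun x hx => ?_
    have key : x ∈ (Ioo (c - R) (c + R))ᶜ ↔ σ / k * (x - c) ∈ S := by
      simp only [hS, mem_compl_iff, mem_Ioo, not_and_or, not_lt, mem_ofPred_eq]
      rw [abs_mul, abs_of_pos ha]
      have e2 : Real.pi / 2 = σ / k * R := by
        rw [hR]
        field_simp
      rw [e2]
      constructor
      · intro h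
        apply mul_lt_mul_of_pos_left _ ha
        rcases h with h | h
        · have : x < c - R := lt_of_le_of_ne h hx.1
          rw [lt_abs]
          right
          linarith
        · have : c + R < x := lt_of_le_of_ne h (Ne.symm hx.2)
          rw [lt_abs]
          left
          linarith
      · intro h
        have h3 : R < |x - c| := lt_of_mul_lt_mul_left h ha.le
        rw [lt_abs] at h3
        rcases h3 with h3 | h3
        · right; linarith
        · left; linarith
    by_cases h : x ∈ (Ioo (c - R) (c + R))ᶜ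
    · rw [indicator_of_mem h, indicator_of_mem (key.1 h)]
    · rw [indicator_of_notMem h, indicator_of_notMem (fun h' => h (key.2 h'))]
  rw [← integral_indicator measurableSet_Ioo.compl, integral_congr_ae e1]
  have e3 := integral_sub_right_eq_self (μ := (volume : Measure ℝ))
    (fun x => S.indicator (fun θ => wt k θ ^ 2) (σ / k * x)) c
  rw [e3]
  have e4 := Measure.integral_comp_mul_left (fun θ => S.indicator (fun θ => wt k θ ^ 2) θ) (σ / k)
  rw [e4, integral_indicator hSm]
  have e5 : |(σ / k)⁻¹| = k / σ := by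
    rw [abs_of_pos (by positivity)]
    field_simp
  rw [e5, smul_eq_mul]
  calc k / σ * ∫ θ in S, wt k θ ^ 2 ≤ k / σ * ((2 / Real.pi) ^ (4 * k) * (4 * Real.pi / (3 * k))) :=
        mul_le_mul_of_nonneg_left (Helper99.Tile.wt_tail hk) (by positivity)
    _ = _ := by
        field_simp

theorem keyStatement (hΩ : MeasurableSet Ω) (h0 : 0 < volume Ω) (h1 : volume Ω ≠ ∞) :
    KeyStatement Ω := by
  intro Cd ε hε
  have hfin : IsFiniteMeasure (volume.restrict Ω) := ⟨by
    rw [Measure.restrict_apply_univ]; exact lt_top_iff_ne_top.mpr h1⟩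
  set m := (volume Ω).toReal with hm
  have hm0 : 0 < m := ENNReal.toReal_pos h0.ne' h1
  obtain ⟨δ, hδ, hshift⟩ := small_shift hΩ h1 (κ := m / 80) (by positivity)
  obtain ⟨d0, hd0, hsepd⟩ := separated hΩ h0 h1
  obtain ⟨r, hr, hr1, hr2⟩ : ∃ r > 0, 2 * r ≤ δ ∧ 4 * r ≤ d0 :=
    ⟨min (δ / 2) (d0 / 4), by positivity, by linarith [min_le_left (δ / 2) (d0 / 4)],
      by linarith [min_le_right (δ / 2) (d0 / 4)]⟩
  obtain ⟨σ, hσ, hchar⟩ := small_char (Ω := Ω) h1 (w := r / 48) (by positivity)
  set q := m * (r / 48) with hq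
  have hq0 : 0 ≤ q := by positivity
  set K : ℝ := (2 / m) * ((4 * q + 2 * m ^ 2) * (Cd ^ 2 * (4 * Real.pi / (3 * σ)))) *
    (Real.pi / (2 * σ)) ^ 2 with hK
  refine ⟨min r ε, by positivity, min_le_right _ _, σ, hσ, Real.sqrt K, ?_⟩
  intro B hB D hD hDb hD0 k hk c R hR hnear hsign b hb
  have hηr : min r ε ≤ r := min_le_left _ _
  set η := min r ε with hη
  have hη0 : 0 < η := by positivity
  have hk' : (0 : ℝ) < k := by exact_mod_cast hk
  have hπ := Real.pi_pos
  have hR0 : 0 < R := by rw [hR]; positivity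
  have hsep := hsepd B hB
  -- finite set
  set F : Finset ℝ := (finite_inter hd0 hsep (c - R - η) (c + R + η)).toFinset with hF
  have hFmem : ∀ x, x ∈ F ↔ x ∈ B ∧ x ∈ Icc (c - R - η) (c + R + η) := by
    intro x
    rw [hF, Set.Finite.mem_toFinset, mem_inter_iff]
  set W : Set ℝ := Ioo (c - R) (c + R) with hW
  by_cases hbF : b ∈ F
  swap
  · -- empty intersection
    have hempty : W ∩ Icc (b - η) (b + η) = ∅ := by
      rw [Set.eq_empty_iff_forall_notMem]
      rintro x ⟨⟨hx1, hx2⟩, hx3, hx4⟩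
      apply hbF
      rw [hFmem]
      exact ⟨hb, by linarith, by linarith⟩
    rw [hempty]
    simp only [Measure.restrict_empty, integral_zero_measure]
    exact Real.sqrt_nonneg _
  set χ : ℝ → ℝ := fun x => wt k (σ / k * (x - c)) with hχ
  have hχN : Nice χ := weight_nice hk (by positivity) c
  have hπR : ∀ x, Real.pi / 2 - |σ / k * (x - c)| = (σ / k) * (R - |x - c|) := by
    intro x
    rw [abs_mul, abs_of_pos (by positivity : (0 : ℝ) < σ / k), hR]
    field_simp
  have hWabs : ∀ x ∈ W, |σ / k * (x - c)| ≤ Real.pi / 2 := by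
    intro x hx
    have h2 := hπR x
    have h3 : |x - c| < R := by
      rw [abs_lt]
      constructor <;> linarith [hx.1, hx.2]
    have : 0 ≤ (σ / k) * (R - |x - c|) := mul_nonneg (by positivity) (by linarith)
    linarith
  have hχW : ∀ x ∈ W, 0 ≤ χ x := fun x hx => Helper99.Tile.wt_nonneg k (hWabs x hx)
  -- spectral
  have hPB1 : PB (volume.restrict Ω) ((volume.restrict Ω).map (fun y => -y)) (kap r) D q (3 * σ)
      (fun _ => 1) := by
    have := PB_one (μ := volume.restrict Ω) (μ' := (volume.restrict Ω).map (fun y => -y))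
      (κ := kap r) (τ := 3 * σ) (w := r / 48) hD hDb hD0 (kap_univ hr) hchar
    have e : ((volume.restrict Ω).map (fun y => -y)).real univ = m := by
      simp only [Measure.real]
      rw [Measure.map_apply measurable_neg MeasurableSet.univ]
      simp [hm]
    rw [e] at this
    exact this
  have hPB2 := PB_wt hD hDb hσ hPB1 hk c
  have hspec := spec_of_PB hD hDb hχN hq0 hPB2
  have hqr : 12 * q / r ≤ m / 4 := by
    rw [hq]
    apply le_of_eq
    field_simp
    norm_num
  have hmain := key_ineq hΩ h1 (r := r) (κ := m / 80) (q := q) (η := η) (Cd := Cd) hr hηr hm0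
    (by linarith) hq0 hqr (fun t ht => hshift t (by linarith)) F
    (fun b hb b' hb' hne => hB.disj hΩ h1 ((hFmem b).1 hb).1 ((hFmem b').1 hb').1 hne)
    (fun b hb b' hb' hne => by
      have := hsep b ((hFmem b).1 hb).1 b' ((hFmem b').1 hb').1 hne
      linarith)
    hD hDb hχN (W := W) measurableSet_Ioo hχW
    (fun x hx hDx => by
      obtain ⟨b, hb, hxb⟩ := hnear x hx hDx
      refine ⟨b, (hFmem b).2 ⟨hb, ?_⟩, hxb⟩
      rw [abs_le] at hxb
      constructor <;> linarith [hx.1, hx.2, hxb.1, hxb.2])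
    (fun b hb => hsign b ((hFmem b).1 hb).1) hspec hbF
  have htail : ∫ x in Wᶜ, χ x ^ 2 ≤ (2 / Real.pi) ^ (4 * k) * (4 * Real.pi / (3 * σ)) :=
    weight_tail hk hσ c hR
  set I : Set ℝ := W ∩ Icc (b - η) (b + η) with hI
  have hIm : MeasurableSet I := measurableSet_Ioo.inter measurableSet_Icc
  set X : ℝ := ∫ x in I, |D x| * ((k : ℝ) * (R - |x - c|)) with hX
  have hIfin : volume I ≠ ∞ := by
    refine ne_top_of_le_ne_top ?_ (measure_mono (inter_subset_right : I ⊆ Icc (b - η) (b + η)))
    simp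
  have hCd : 0 ≤ Cd := (abs_nonneg _).trans (hDb 0)
  have hfinI : IsFiniteMeasure (volume.restrict I) := ⟨by
    rw [Measure.restrict_apply_univ]; exact lt_top_iff_ne_top.mpr hIfin⟩
  have hX0 : 0 ≤ X := by
    apply setIntegral_nonneg hIm
    intro x hx
    have h3 : |x - c| < R := by
      rw [abs_lt]
      constructor <;> linarith [hx.1.1, hx.1.2]
    exact mul_nonneg (abs_nonneg _) (mul_nonneg hk'.le (by linarith))
  have hlow : (2 / Real.pi) ^ (2 * k) * ((2 / Real.pi) * σ) * X ≤ ∫ x in I, |D x| * χ x := by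
    rw [hX, ← integral_const_mul]
    apply setIntegral_mono_on
    · apply Integrable.const_mul
      refine Integrable.of_bound (C := Cd * (k * (2 * R))) ?_ ?_
      · exact (hD.abs.mul (by fun_prop)).aestronglyMeasurable
      · refine (ae_restrict_mem hIm).mono fun x hx => ?_
        have h3 : |x - c| < R := by
          rw [abs_lt]
          constructor <;> linarith [hx.1.1, hx.1.2]
        rw [norm_mul, norm_mul, Real.norm_eq_abs, Real.norm_eq_abs, Real.norm_eq_abs, abs_abs,
          abs_of_pos hk']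
        apply mul_le_mul (hDb x) _ (by positivity) hCd
        apply mul_le_mul_of_nonneg_left _ hk'.le
        rw [abs_le]
        constructor <;> linarith [abs_nonneg (x - c)]
    · refine Integrable.of_bound (C := Cd * 4 ^ k) ?_ (ae_of_all _ fun x => ?_)
      · exact (hD.abs.mul hχN.1.1).aestronglyMeasurable
      · rw [norm_mul, Real.norm_eq_abs, Real.norm_eq_abs, abs_abs]
        exact mul_le_mul (hDb x) (Helper99.Tile.abs_wt_le k _) (abs_nonneg _) hCd
    · exact hIm
    · intro x hx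
      have h4 := Helper99.Tile.wt_lower' k (hWabs x hx.1)
      rw [hπR x] at h4
      have e6 : (2 / Real.pi) ^ (2 * k) * ((k : ℝ) ^ 2 * (2 / Real.pi) * (σ / k * (R - |x - c|))) =
          (2 / Real.pi) ^ (2 * k) * ((2 / Real.pi) * σ) * ((k : ℝ) * (R - |x - c|)) := by
        field_simp
      rw [e6] at h4
      calc (2 / Real.pi) ^ (2 * k) * ((2 / Real.pi) * σ) * (|D x| * ((k : ℝ) * (R - |x - c|))) =
          |D x| * ((2 / Real.pi) ^ (2 * k) * ((2 / Real.pi) * σ) * ((k : ℝ) * (R - |x - c|))) := by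
            ring
        _ ≤ |D x| * χ x := mul_le_mul_of_nonneg_left h4 (abs_nonneg _)
  have hsq : ((2 / Real.pi) ^ (2 * k) * ((2 / Real.pi) * σ) * X) ^ 2 ≤
      (∫ x in I, |D x| * χ x) ^ 2 := pow_le_pow_left₀ (by positivity) hlow 2
  have hfinal : m / 2 * ((2 / Real.pi) ^ (2 * k) * ((2 / Real.pi) * σ) * X) ^ 2 ≤
      (4 * q + 2 * m ^ 2) * (Cd ^ 2 * ((2 / Real.pi) ^ (4 * k) * (4 * Real.pi / (3 * σ)))) := by
    refine (mul_le_mul_of_nonneg_left hsq (by positivity)).trans (hmain.trans ?_)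
    apply mul_le_mul_of_nonneg_left _ (by positivity)
    exact mul_le_mul_of_nonneg_left htail (by positivity)
  have hX2 : X ^ 2 ≤ K := by
    have e7 : m / 2 * ((2 / Real.pi) ^ (2 * k) * ((2 / Real.pi) * σ) * X) ^ 2 =
        (2 / Real.pi) ^ (4 * k) * (m / 2 * ((2 / Real.pi) * σ) ^ 2 * X ^ 2) := by
      have : (2 / Real.pi) ^ (4 * k) = ((2 / Real.pi) ^ (2 * k)) ^ 2 := by
        rw [← pow_mul]
        congr 1
        ring
      rw [this]
      ring
    have e8 : (4 * q + 2 * m ^ 2) * (Cd ^ 2 * ((2 / Real.pi) ^ (4 * k) * (4 * Real.pi / (3 * σ)))) =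
        (2 / Real.pi) ^ (4 * k) * ((4 * q + 2 * m ^ 2) * (Cd ^ 2 * (4 * Real.pi / (3 * σ)))) := by
      ring
    rw [e7, e8] at hfinal
    have h5 := le_of_mul_le_mul_left hfinal (by positivity)
    have e9 : X ^ 2 = (2 / m) * (m / 2 * ((2 / Real.pi) * σ) ^ 2 * X ^ 2) *
        (Real.pi / (2 * σ)) ^ 2 := by
      field_simp
    rw [e9, hK]
    apply mul_le_mul_of_nonneg_right _ (by positivity)
    exact mul_le_mul_of_nonneg_left h5 (by positivity)
  exact Real.le_sqrt_of_sq_le hX2

end Pool.Agent.Helper75.Tile
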