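import Pool.Agent.Helper75.Tile.End
import Pool.Agent.Helper75.Tile.KeyStmt

set_option autoImplicit false

/-!
# Every level one tiling is periodic: the core statement
-/

namespace Pool.Agent.Helper75.Tile

open MeasureTheory Set Filter Topology
open scoped ENNReal NNReal

/-- Pigeonhole: there is a number of tiles `l ≥ 1` and a point `a` such that the counting
difference vanishes at all points `a + c h`, `c ≤ G`. -/
theorem pigeon {Λ : Set ℝ} {d0 m C h : ℝ} (hs : Sep d0 Λ) (hd : 0 < d0) (hm : 0 < m)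
    (hh : 0 < h) (G : ℕ)
    (hbd : ∀ l : ℕ, 1 ≤ l → ∀ x, |Dl Λ (l * m) l x| ≤ C) :
    ∃ l : ℕ, 1 ≤ l ∧ ∃ a : ℝ, ∀ c : ℕ, c ≤ G →
      ((l : ℤ) - cnt Λ (a + c * h) (a + c * h + l * m) : ℤ) = 0 := by
  set N : ℤ := cnt Λ 0 (G * h) + ⌈C⌉ with hN
  set v : ℕ → Fin (G + 1) → ℤ := fun j c =>
    cnt Λ 0 ((j + 1 : ℕ) * m + (c : ℕ) * h) - (j + 1 : ℕ) with hv
  have hsplit : ∀ (j : ℕ) (y : ℝ), 0 ≤ y →
      cnt Λ 0 (j * m + y) = cnt Λ 0 y + cnt Λ y (y + j * m) := by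
    intro j y hy
    rw [← cnt_add hs hd hy (by have : 0 ≤ (j : ℝ) * m := by positivity
                               linarith)]
    congr 1
    ring
  have hmem : ∀ j, v j ∈ Set.pi univ (fun _ : Fin (G + 1) => Icc (-N) N) := by
    intro j c _
    have hc : (c : ℕ) ≤ G := Nat.lt_succ_iff.mp c.2
    have hcy : (0 : ℝ) ≤ (c : ℕ) * h := by positivity
    have h1 := hsplit (j + 1) ((c : ℕ) * h) hcy
    have h2 := hbd (j + 1) (by omega) ((c : ℕ) * h)
    unfold Dl at h2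
    have h3 : |(((j + 1 : ℕ) : ℤ) - cnt Λ ((c : ℕ) * h) ((c : ℕ) * h + (j + 1 : ℕ) * m))| ≤ ⌈C⌉ := by
      have : (|(((j + 1 : ℕ) : ℤ) - cnt Λ ((c : ℕ) * h) ((c : ℕ) * h + (j + 1 : ℕ) * m))| : ℝ)
          ≤ (⌈C⌉ : ℝ) := by
        refine le_trans ?_ (Int.le_ceil C)
        exact_mod_cast h2
      exact_mod_cast this
    have h4 : cnt Λ 0 (G * h) = cnt Λ 0 ((c : ℕ) * h) + cnt Λ ((c : ℕ) * h) (G * h) := by
      apply cnt_add hs hd hcy
      have : ((c : ℕ) : ℝ) ≤ G := by exact_mod_cast hc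
      exact mul_le_mul_of_nonneg_right this hh.le
    have h5 := cnt_nonneg Λ ((c : ℕ) * h) (G * h)
    have h6 := cnt_nonneg Λ 0 ((c : ℕ) * h)
    rw [abs_le] at h3
    obtain ⟨h3a, h3b⟩ := h3
    rw [mem_Icc, hv]
    simp only
    rw [h1]
    constructor <;> omega
  obtain ⟨j, j', hjj, hvj⟩ := (Set.Finite.pi fun _ : Fin (G + 1) =>
    Set.finite_Icc (-N) N).exists_lt_map_eq_of_forall_mem hmem
  refine ⟨j' - j, by omega, (j + 1 : ℕ) * m, fun c hc => ?_⟩
  have h1 := congrFun hvj ⟨c, Nat.lt_succ_iff.mpr hc⟩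
  simp only [hv] at h1
  have hcy : (0 : ℝ) ≤ (c : ℝ) * h := by positivity
  have hjm : (0 : ℝ) ≤ ((j + 1 : ℕ) : ℝ) * m := by positivity
  have hcast : (((j' - j : ℕ) : ℝ)) = (j' : ℝ) - j := by
    rw [Nat.cast_sub hjj.le]
  have h2 : cnt Λ 0 ((j' + 1 : ℕ) * m + (c : ℝ) * h) = cnt Λ 0 ((j + 1 : ℕ) * m + (c : ℝ) * h) +
      cnt Λ ((j + 1 : ℕ) * m + (c : ℝ) * h)
        ((j + 1 : ℕ) * m + (c : ℝ) * h + ((j' - j : ℕ) : ℝ) * m) := by
    rw [← cnt_add hs hd (by linarith)]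
    · congr 1
      rw [hcast]
      push_cast
      ring
    · have : (0 : ℝ) ≤ ((j' - j : ℕ) : ℝ) * m := by positivity
      linarith
  have h3 : ((j' - j : ℕ) : ℤ) = (j' : ℤ) - j := by omega
  rw [h3]
  push_cast at h1 h2 ⊢
  omega

theorem periodic_core {Ω Λ : Set ℝ} (hΩ : MeasurableSet Ω) (h0 : 0 < volume Ω)
    (h1 : volume Ω ≠ ∞) (hΛ : IsTiling Ω Λ)
    (hmeas : ∀ l : ℕ, 1 ≤ l → Measurable (Dl Λ (l * (volume Ω).toReal) l))
    (hann : ∀ l : ℕ, 1 ≤ l → ∀ x, ∫ y in Ω, Dl Λ (l * (volume Ω).toReal) l (x - y) = 0)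
    (hbd : ∃ C, ∀ l : ℕ, 1 ≤ l → ∀ x, |Dl Λ (l * (volume Ω).toReal) l x| ≤ C)
    (hshift : ∀ t, IsTiling Ω {x | x + t ∈ Λ}) :
    ∃ l : ℕ, 1 ≤ l ∧ ∀ x, x ∈ Λ ↔ x + l * (volume Ω).toReal ∈ Λ := by
  set m := (volume Ω).toReal with hmdef
  have hm : 0 < m := ENNReal.toReal_pos h0.ne' h1
  obtain ⟨d0, hd0, hsep⟩ := separated hΩ h0 h1
  obtain ⟨C, hC⟩ := hbd
  obtain ⟨η, hη, hηε, σ, hσ, C3, H⟩ := keyStatement hΩ h0 h1 C (d0 / 4) (by positivity)
  set R : ℕ → ℝ := fun k => Real.pi * k / (2 * σ) with hR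
  have hRt : Tendsto R atTop atTop := by
    have : R = fun k : ℕ => (Real.pi / (2 * σ)) * (k : ℝ) := by
      funext k
      simp only [hR]
      ring
    rw [this]
    exact tendsto_natCast_atTop_atTop.const_mul_atTop (by positivity)
  obtain ⟨k0, hk0, hk1, hk2⟩ : ∃ k : ℕ, 1 ≤ k ∧ η ≤ R k ∧ C3 < (k : ℝ) * (η / 2) * (η / 2) := by
    have e1 : ∀ᶠ k : ℕ in atTop, 1 ≤ k := eventually_ge_atTop 1
    have e2 : ∀ᶠ k : ℕ in atTop, η ≤ R k := hRt.eventually_ge_atTop _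
    have e3 : ∀ᶠ k : ℕ in atTop, C3 / ((η / 2) * (η / 2)) < (k : ℝ) :=
      tendsto_natCast_atTop_atTop.eventually_gt_atTop _
    obtain ⟨k, hk1, hk2, hk3⟩ := (e1.and (e2.and e3)).exists
    refine ⟨k, hk1, hk2, ?_⟩
    rw [div_lt_iff₀ (by positivity)] at hk3
    linarith
  have hsΛ : Sep d0 Λ := fun b hb b' hb' hne => hsep Λ hΛ b hb b' hb' hne
  have hh : 0 < η / 2 := by positivity
  obtain ⟨l, hl, a, hzero⟩ := pigeon hsΛ hd0 hm hh (⌈2 * R k0 / (η / 2)⌉₊ + 1) hC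
  set A' : Set ℝ := {x | x + l * m ∈ Λ} with hA'
  set D : ℝ → ℤ := fun x => (l : ℤ) - cnt Λ x (x + l * m) with hD
  have hlm : 0 ≤ (l : ℝ) * m := by positivity
  have hdat : Dat d0 Λ A' D := by
    refine ⟨hd0, hsΛ, hsΛ.shift _, fun x y hxy => ?_⟩
    rw [hA', cnt_shift]
    have e1 : cnt Λ x (y + l * m) = cnt Λ x y + cnt Λ y (y + l * m) :=
      cnt_add hsΛ hd0 hxy (by linarith)
    have e2 : cnt Λ x (y + l * m) = cnt Λ x (x + l * m) + cnt Λ (x + l * m) (y + l * m) :=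
      cnt_add hsΛ hd0 (by linarith) (by linarith)
    simp only [hD]
    omega
  have hDl : (fun x => (D x : ℝ)) = Dl Λ (l * m) l := rfl
  have hDm : Measurable (fun x => (D x : ℝ)) := by
    rw [hDl]; exact hmeas l hl
  have hDC : ∀ x, |(D x : ℝ)| ≤ C := fun x => hC l hl x
  have hHK : ∀ k, 1 ≤ k → HK η (R k) C3 k Λ A' D := by
    intro k hk B hB c hloc b hb
    have hBt : IsTiling Ω B := by
      rcases hB with rfl | rfl
      · exact hΛ
      · exact hshift _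
    refine H B hBt (fun x => (D x : ℝ)) hDm hDC (fun x => hann l hl x) k hk c (R k) rfl ?_ ?_ b hb
    · intro x hx hDx
      exact hloc x hx (by exact_mod_cast hDx)
    · intro b' _ x _ y _ hxb hyb
      apply hdat.mul_nonneg'
      have : |x - y| ≤ |x - b'| + |y - b'| := by
        have e : x - y = (x - b') - (y - b') := by ring
        rw [e]
        exact abs_sub _ _
      linarith
  have hwin : ∀ x, a ≤ x → x ≤ a + 2 * R k0 → ¬ Bad η D x := by
    intro x hx1 hx2 hbad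
    set c := ⌊(x - a) / (η / 2)⌋₊ + 1 with hc
    have hnn : 0 ≤ (x - a) / (η / 2) := div_nonneg (by linarith) hh.le
    have hc1 : (x - a) / (η / 2) < c := by
      rw [hc]; push_cast; exact Nat.lt_floor_add_one _
    have hc2 : (c : ℝ) ≤ (x - a) / (η / 2) + 1 := by
      rw [hc]; push_cast
      have := Nat.floor_le hnn
      linarith
    have hcG : c ≤ ⌈2 * R k0 / (η / 2)⌉₊ + 1 := by
      rw [hc]
      apply Nat.add_le_add_right
      apply (Nat.floor_le_ceil _).trans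
      apply Nat.ceil_le_ceil
      apply div_le_div_of_nonneg_right _ hh.le
      linarith
    have hz := hzero c hcG
    apply hbad (a + c * (η / 2)) _ _ hz
    · rw [div_lt_iff₀ hh] at hc1
      linarith
    · have : (c : ℝ) * (η / 2) ≤ (x - a) + η / 2 := by
        calc (c : ℝ) * (η / 2) ≤ ((x - a) / (η / 2) + 1) * (η / 2) :=
              mul_le_mul_of_nonneg_right hc2 hh.le
          _ = (x - a) + η / 2 := by field_simp
      linarith
  have hr := exit_right hdat hDm hDC hη hk1 hk2 (hHK k0 hk0) hwin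
  have hlft := exit_left hdat hDm hDC hη hk1 hk2 (hHK k0 hk0) (b := a + 2 * R k0) (by
    intro x hx _
    exact hr x (by linarith))
  have hgood : ∀ x, ¬ Bad η D x := by
    intro x
    rcases le_total a x with hx | hx
    · exact hr x hx
    · apply hlft x
      linarith
  have hvan := vanish hdat hDm hDC hRt hHK hgood
  have heq := eq_of_zero hdat hvan
  refine ⟨l, hl, fun x => ?_⟩
  constructor
  · intro hx
    rw [heq] at hx
    exact hx
  · intro hx
    rw [heq]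
    exact hx

end Pool.Agent.Helper75.Tile
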