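import Mathlib

set_option autoImplicit false

/-!
# Tilings of the line by translates of a set of finite measure: basic definitions
-/

namespace Pool.Agent.Helper75.Tile

open MeasureTheory Set
open scoped ENNReal

/-- The translate `Ω + t`. -/
def sh (Ω : Set ℝ) (t : ℝ) : Set ℝ := {x | x - t ∈ Ω}

/-- Level one tiling, in integrated form. -/
def IsTiling (Ω Λ : Set ℝ) : Prop :=
  Λ.Countable ∧ ∀ S : Set ℝ, MeasurableSet S → ∑' l : Λ, volume (S ∩ sh Ω l) = volume S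

/-- Number of points of `Λ` in `(a, b]`. -/
noncomputable def cnt (Λ : Set ℝ) (a b : ℝ) : ℤ := ((Λ ∩ Ioc a b).ncard : ℤ)

/-- The counting difference `l - #(Λ ∩ (x, x + τ])` (used with `τ = l * |Ω|`). -/
noncomputable def Dl (Λ : Set ℝ) (τ : ℝ) (l : ℤ) (x : ℝ) : ℝ := ((l - cnt Λ x (x + τ) : ℤ) : ℝ)

/-- The weights (in the rescaled variable `θ`). -/
noncomputable def wt (k : ℕ) (θ : ℝ) : ℝ :=
  (Polynomial.Chebyshev.T ℝ k).eval (1 + Real.cos θ) * (Real.sinc θ) ^ (2 * k)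

/-- The analytic key statement. -/
def KeyStatement (Ω : Set ℝ) : Prop :=
  ∀ Cd ε : ℝ, 0 < ε → ∃ η : ℝ, 0 < η ∧ η ≤ ε ∧ ∃ σ : ℝ, 0 < σ ∧ ∃ C3 : ℝ,
    ∀ B : Set ℝ, IsTiling Ω B → ∀ D : ℝ → ℝ, Measurable D → (∀ x, |D x| ≤ Cd) →
      (∀ x, ∫ y in Ω, D (x - y) = 0) →
      ∀ k : ℕ, 1 ≤ k → ∀ c R : ℝ, R = Real.pi * k / (2 * σ) →
      (∀ x ∈ Ioo (c - R) (c + R), D x ≠ 0 → ∃ b ∈ B, |x - b| ≤ η) →
      (∀ b ∈ B, ∀ x ∈ Ioo (c - R) (c + R), ∀ y ∈ Ioo (c - R) (c + R),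
        |x - b| ≤ η → |y - b| ≤ η → 0 ≤ D x * D y) →
      ∀ b ∈ B, ∫ x in Ioo (c - R) (c + R) ∩ Icc (b - η) (b + η),
        |D x| * ((k : ℝ) * (R - |x - c|)) ≤ C3

end Pool.Agent.Helper75.Tile
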