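import Pool.Agent.Helper75.Tile.Cnt

set_option autoImplicit false

/-!
# The elementary end of the proof: from the key statement to periodicity
-/

namespace Pool.Agent.Helper75.Tile

open MeasureTheory Set Filter Topology
open scoped ENNReal NNReal

section Local

variable {B : Set ℝ} {d0 : ℝ}

theorem cnt_zero_of (h : Sep d0 B) (hd : 0 < d0) {x y : ℝ} (hB : ∀ b ∈ B, x < b → y < b) :
    cnt B x y = 0 := by
  by_contra hne
  have h1 : 1 ≤ cnt B x y := by
    have := cnt_nonneg B x y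
    omega
  obtain ⟨b, hb, h2, h3⟩ := (one_le_cnt_iff h hd).1 h1
  linarith [hB b hb h2]

theorem cnt_right (h : Sep d0 B) (hd : 0 < d0) (p : ℝ) :
    ∃ δ > 0, ∀ y, y < p + δ → cnt B p y = 0 := by
  obtain ⟨δ, hδ, hiso⟩ := h.isolated p
  refine ⟨δ, hδ, fun y hy => cnt_zero_of h hd fun b hb hpb => ?_⟩
  rcases hiso b hb hpb.ne' with h1 | h1
  · rw [abs_of_pos (by linarith)] at h1
    linarith
  · linarith

theorem cnt_left_lt (h : Sep d0 B) (hd : 0 < d0) (p : ℝ) :
    ∃ δ > 0, ∀ x y, p - δ < x → y < p → cnt B x y = 0 := by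
  obtain ⟨δ, hδ, hiso⟩ := h.isolated p
  refine ⟨δ, hδ, fun x y hx hy => cnt_zero_of h hd fun b hb hxb => ?_⟩
  by_contra hcon
  rw [not_lt] at hcon
  rcases hiso b hb (by linarith : b < p).ne with h1 | h1
  · rw [abs_of_neg (by linarith)] at h1
    linarith
  · linarith

theorem cnt_left (h : Sep d0 B) (hd : 0 < d0) (p : ℝ) :
    ∃ δ > 0, ∀ x, p - δ < x → x < p → (1 ≤ cnt B x p ↔ p ∈ B) ∧ cnt B x p ≤ 1 := by
  obtain ⟨δ, hδ, hiso⟩ := h.isolated p
  refine ⟨min δ d0, lt_min hδ hd, fun x hx hxp => ⟨?_, ?_⟩⟩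
  · rw [one_le_cnt_iff h hd]
    constructor
    · rintro ⟨b, hb, h1, h2⟩
      by_cases hbp : b = p
      · rwa [← hbp]
      · rcases hiso b hb hbp with h3 | h3
        · have hlt : b < p := lt_of_le_of_ne h2 hbp
          rw [abs_of_neg (by linarith)] at h3
          have := min_le_left δ d0
          linarith
        · linarith
    · intro hp
      exact ⟨p, hp, hxp, le_rfl⟩
  · apply cnt_le_one h hd
    have := min_le_right δ d0
    linarith

end Local

/-- The abstract data: two separated sets `A`, `A'` and an integer valued function `D` whose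
increments are the differences of the counting functions. -/
structure Dat (d0 : ℝ) (A A' : Set ℝ) (D : ℝ → ℤ) : Prop where
  pos : 0 < d0
  sA : Sep d0 A
  sA' : Sep d0 A'
  inc : ∀ x y, x ≤ y → D y - D x = cnt A x y - cnt A' x y

namespace Dat

variable {d0 : ℝ} {A A' : Set ℝ} {D : ℝ → ℤ}

theorem diff_le (h : Dat d0 A A' D) {x y : ℝ} (hxy : |x - y| < d0) : |D x - D y| ≤ 1 := by
  wlog hle : x ≤ y generalizing x y
  · have := this (x := y) (y := x) (by rwa [abs_sub_comm]) (by linarith)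
    rwa [abs_sub_comm]
  have h1 := h.inc x y hle
  have hd : y - x < d0 := by
    rw [abs_sub_comm, abs_of_nonneg (by linarith)] at hxy
    exact hxy
  have h2 := cnt_le_one h.sA h.pos hd
  have h3 := cnt_le_one h.sA' h.pos hd
  have h4 := cnt_nonneg A x y
  have h5 := cnt_nonneg A' x y
  rw [abs_le]
  constructor <;> omega

theorem mul_nonneg' (h : Dat d0 A A' D) {x y : ℝ} (hxy : |x - y| < d0) :
    0 ≤ (D x : ℝ) * (D y : ℝ) := by
  have h1 := h.diff_le hxy
  rw [abs_le] at h1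
  have : 0 ≤ D x * D y := by
    by_cases hx : 0 < D x
    · have : 0 ≤ D y := by omega
      positivity
    · by_cases hx0 : D x = 0
      · simp [hx0]
      · have hx1 : D x ≤ 0 := by omega
        have hy1 : D y ≤ 0 := by omega
        exact mul_nonneg_of_nonpos_of_nonpos hx1 hy1
  exact_mod_cast this

theorem right (h : Dat d0 A A' D) (p : ℝ) : ∃ δ > 0, ∀ y, p ≤ y → y < p + δ → D y = D p := by
  obtain ⟨δ1, h1, H1⟩ := cnt_right h.sA h.pos p
  obtain ⟨δ2, h2, H2⟩ := cnt_right h.sA' h.pos p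
  refine ⟨min δ1 δ2, lt_min h1 h2, fun y hpy hy => ?_⟩
  have e := h.inc p y hpy
  have e1 := H1 y (by linarith [min_le_left δ1 δ2])
  have e2 := H2 y (by linarith [min_le_right δ1 δ2])
  omega

theorem leftc (h : Dat d0 A A' D) (p : ℝ) :
    ∃ δ > 0, ∀ x y, p - δ < x → x < p → p - δ < y → y < p → D x = D y := by
  obtain ⟨δ1, h1, H1⟩ := cnt_left_lt h.sA h.pos p
  obtain ⟨δ2, h2, H2⟩ := cnt_left_lt h.sA' h.pos p
  refine ⟨min δ1 δ2, lt_min h1 h2, ?_⟩
  have key : ∀ x y, p - min δ1 δ2 < x → y < p → x ≤ y → D x = D y := by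
    intro x y hx hy hxy
    have e := h.inc x y hxy
    have e1 := H1 x y (by linarith [min_le_left δ1 δ2]) hy
    have e2 := H2 x y (by linarith [min_le_right δ1 δ2]) hy
    omega
  intro x y hx hxp hy hyp
  rcases le_total x y with hxy | hxy
  · exact key x y hx hyp hxy
  · exact (key y x hy hxp hxy).symm

/-- Jump relation at `p`. -/
theorem jump (h : Dat d0 A A' D) (p : ℝ) : ∃ δ > 0, ∀ x, p - δ < x → x < p →
    (D x < D p → p ∈ A) ∧ (D p < D x → p ∈ A') ∧ (D x = D p → (p ∈ A ↔ p ∈ A')) := by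
  obtain ⟨δ1, h1, H1⟩ := cnt_left h.sA h.pos p
  obtain ⟨δ2, h2, H2⟩ := cnt_left h.sA' h.pos p
  refine ⟨min δ1 δ2, lt_min h1 h2, fun x hx hxp => ?_⟩
  have e := h.inc x p hxp.le
  obtain ⟨e1, e1'⟩ := H1 x (by linarith [min_le_left δ1 δ2]) hxp
  obtain ⟨e2, e2'⟩ := H2 x (by linarith [min_le_right δ1 δ2]) hxp
  have n1 := cnt_nonneg A x p
  have n2 := cnt_nonneg A' x p
  refine ⟨fun hlt => e1.1 (by omega), fun hlt => e2.1 (by omega), fun heq => ?_⟩
  rw [← e1, ← e2]
  omega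

/-- Both sets have a point close to a nonzero value between two zeros. -/
theorem near (h : Dat d0 A A' D) {x z1 z2 η : ℝ} (hx : D x ≠ 0) (h1 : D z1 = 0) (h2 : D z2 = 0)
    (hz1 : z1 < x) (hz2 : x < z2) (h1η : x - η < z1) (h2η : z2 < x + η) :
    (∃ b ∈ A, |x - b| < η) ∧ (∃ b ∈ A', |x - b| < η) := by
  have e1 := h.inc z1 x hz1.le
  have e2 := h.inc x z2 hz2.le
  have n1 := cnt_nonneg A z1 x
  have n2 := cnt_nonneg A' z1 x
  have n3 := cnt_nonneg A x z2
  have n4 := cnt_nonneg A' x z2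
  have aux1 : ∀ b, z1 < b → b ≤ x → |x - b| < η := by
    intro b hb hb'
    rw [abs_lt]
    constructor <;> linarith
  have aux2 : ∀ b, x < b → b ≤ z2 → |x - b| < η := by
    intro b hb hb'
    rw [abs_lt]
    constructor <;> linarith
  rcases lt_or_gt_of_ne hx with hneg | hpos
  · have c1 : 1 ≤ cnt A' z1 x := by omega
    have c2 : 1 ≤ cnt A x z2 := by omega
    obtain ⟨b, hb, hb1, hb2⟩ := (one_le_cnt_iff h.sA' h.pos).1 c1
    obtain ⟨b', hb', hb1', hb2'⟩ := (one_le_cnt_iff h.sA h.pos).1 c2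
    exact ⟨⟨b', hb', aux2 b' hb1' hb2'⟩, ⟨b, hb, aux1 b hb1 hb2⟩⟩
  · have c1 : 1 ≤ cnt A z1 x := by omega
    have c2 : 1 ≤ cnt A' x z2 := by omega
    obtain ⟨b, hb, hb1, hb2⟩ := (one_le_cnt_iff h.sA h.pos).1 c1
    obtain ⟨b', hb', hb1', hb2'⟩ := (one_le_cnt_iff h.sA' h.pos).1 c2
    exact ⟨⟨b, hb, aux1 b hb1 hb2⟩, ⟨b', hb', aux2 b' hb1' hb2'⟩⟩

end Dat

/-- `x` starts an interval of length `η` without zeros of `D`. -/
def Bad (η : ℝ) (D : ℝ → ℤ) (x : ℝ) : Prop := ∀ y, x < y → y < x + η → D y ≠ 0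

/-- The inequality supplied by the key statement. -/
def HK (η R C3 : ℝ) (k : ℕ) (A A' : Set ℝ) (D : ℝ → ℤ) : Prop :=
  ∀ B : Set ℝ, (B = A ∨ B = A') → ∀ c : ℝ,
    (∀ x ∈ Ioo (c - R) (c + R), D x ≠ 0 → ∃ b ∈ B, |x - b| ≤ η) →
    ∀ b ∈ B, ∫ x in Ioo (c - R) (c + R) ∩ Icc (b - η) (b + η),
        |(D x : ℝ)| * ((k : ℝ) * (R - |x - c|)) ≤ C3

theorem lower {D : ℝ → ℤ} (hm : Measurable (fun x => (D x : ℝ))) {C : ℝ}
    (hC : ∀ x, |(D x : ℝ)| ≤ C) (k : ℕ) {R c b η u v κ : ℝ} (huv : u ≤ v)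
    (hsub : Ioo u v ⊆ Ioo (c - R) (c + R) ∩ Icc (b - η) (b + η))
    (hD : ∀ x ∈ Ioo u v, D x ≠ 0) (hκ : ∀ x ∈ Ioo u v, κ ≤ R - |x - c|) :
    (k : ℝ) * κ * (v - u) ≤ ∫ x in Ioo (c - R) (c + R) ∩ Icc (b - η) (b + η),
        |(D x : ℝ)| * ((k : ℝ) * (R - |x - c|)) := by
  set S : Set ℝ := Ioo (c - R) (c + R) ∩ Icc (b - η) (b + η) with hS
  set f : ℝ → ℝ := fun x => |(D x : ℝ)| * ((k : ℝ) * (R - |x - c|)) with hf
  have hSm : MeasurableSet S := measurableSet_Ioo.inter measurableSet_Icc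
  have hpos : ∀ x ∈ S, 0 < R - |x - c| := by
    rintro x ⟨⟨hx1, hx2⟩, -⟩
    have : |x - c| < R := by
      rw [abs_lt]; constructor <;> linarith
    linarith
  have hfm : Measurable f := by
    apply Measurable.mul
    · exact hm.abs
    · fun_prop
  have hfin : volume S ≠ ∞ := by
    refine ne_top_of_le_ne_top ?_ (measure_mono (inter_subset_left : S ⊆ Ioo (c - R) (c + R)))
    simp
  have hint : IntegrableOn f S := by
    refine Measure.integrableOn_of_bounded (M := C * (k * R)) hfin hfm.aestronglyMeasurable ?_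
    rw [ae_restrict_iff' hSm]
    refine Eventually.of_forall fun x hx => ?_
    have h1 := hpos x hx
    rw [Real.norm_eq_abs, hf]
    simp only
    rw [abs_mul, abs_abs]
    apply mul_le_mul (hC x) _ (abs_nonneg _) ((abs_nonneg _).trans (hC x))
    rw [abs_of_nonneg (by positivity)]
    apply mul_le_mul_of_nonneg_left _ (Nat.cast_nonneg k)
    have := abs_nonneg (x - c)
    linarith
  have h1 : ∫ x in Ioo u v, f x ≤ ∫ x in S, f x := by
    apply setIntegral_mono_set hint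
    · rw [EventuallyLE, ae_restrict_iff' hSm]
      refine Eventually.of_forall fun x hx => ?_
      have := hpos x hx
      simp only [Pi.zero_apply, hf]
      positivity
    · exact LE.le.eventuallyLE hsub
  have h2 : volume.real (Ioo u v) • ((k : ℝ) * κ) ≤ ∫ x in Ioo u v, f x := by
    apply setIntegral_ge_of_const_le measurableSet_Ioo (by simp) _ (hint.mono_set hsub)
    intro x hx
    have h3 := hκ x hx
    have h4 : (1 : ℝ) ≤ |(D x : ℝ)| := by
      have : (1 : ℤ) ≤ |D x| := Int.one_le_abs (hD x hx)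
      exact_mod_cast this
    have h5 := hpos x (hsub hx)
    have h6 : (k : ℝ) * κ ≤ (k : ℝ) * (R - |x - c|) :=
      mul_le_mul_of_nonneg_left h3 (Nat.cast_nonneg k)
    have h7 : 0 ≤ (k : ℝ) * (R - |x - c|) := by positivity
    show (k : ℝ) * κ ≤ |(D x : ℝ)| * ((k : ℝ) * (R - |x - c|))
    nlinarith
  rw [Real.volume_real_Ioo_of_le huv, smul_eq_mul] at h2
  linarith


/-- If there is no bad point in a long window starting at `a`, there is none to the right. -/
theorem exit_right {d0 : ℝ} {A A' : Set ℝ} {D : ℝ → ℤ} (h : Dat d0 A A' D)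
    (hm : Measurable (fun x => (D x : ℝ))) {C : ℝ} (hC : ∀ x, |(D x : ℝ)| ≤ C)
    {η R C3 : ℝ} {k : ℕ} (hη : 0 < η) (hR : η ≤ R) (hk : C3 < (k : ℝ) * (η / 2) * (η / 2))
    (hHK : HK η R C3 k A A' D) {a : ℝ} (ha : ∀ x, a ≤ x → x ≤ a + 2 * R → ¬ Bad η D x) :
    ∀ x, a ≤ x → ¬ Bad η D x := by
  intro x0 hx0 hbad0
  set S : Set ℝ := {x | a ≤ x ∧ Bad η D x} with hS
  have hne : S.Nonempty := ⟨x0, hx0, hbad0⟩
  have hbdd : BddBelow S := ⟨a, fun x hx => hx.1⟩
  set p := sInf S with hp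
  have hap : a ≤ p := le_csInf hne fun x hx => hx.1
  have hgood : ∀ x, a ≤ x → x < p → ¬ Bad η D x := by
    intro x hx hxp hb
    have := csInf_le hbdd (show x ∈ S from ⟨hx, hb⟩)
    linarith
  have hbad : Bad η D p := by
    intro y hy1 hy2
    obtain ⟨z, hz, hzy⟩ := exists_lt_of_csInf_lt hne hy1
    have hpz : p ≤ z := csInf_le hbdd hz
    exact hz.2 y hzy (by linarith)
  have hp2 : a + 2 * R < p := by
    by_contra hcon
    exact ha p hap (not_lt.mp hcon) hbad
  -- values at and just to the left of `p`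
  have hDp : D p ≠ 0 := by
    obtain ⟨δ, hδ, H⟩ := h.right p
    have h1 := H (p + min δ η / 2) (by
      have : 0 < min δ η := lt_min hδ hη
      linarith) (by
      have := min_le_left δ η
      have : 0 < min δ η := lt_min hδ hη
      linarith)
    rw [← h1]
    apply hbad
    · have : 0 < min δ η := lt_min hδ hη
      linarith
    · have := min_le_right δ η
      have : 0 < min δ η := lt_min hδ hη
      linarith
  obtain ⟨δ1, hδ1, H1⟩ := h.leftc p
  obtain ⟨δ2, hδ2, H2⟩ := h.jump p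
  have hleft : ∀ x, p - min δ1 (p - a) < x → x < p → D x = 0 := by
    intro x hx hxp
    by_contra hx0
    apply hgood x (by linarith [min_le_right δ1 (p - a)]) hxp
    intro y hy1 hy2
    rcases lt_trichotomy y p with hyp | hyp | hyp
    · rw [← H1 x y (by linarith [min_le_left δ1 (p - a)]) hxp
        (by linarith [min_le_left δ1 (p - a)]) hyp]
      exact hx0
    · rw [hyp]; exact hDp
    · exact hbad y hyp (by linarith)
  -- `p` belongs to one of the two sets
  have hmem : ∃ B, (B = A ∨ B = A') ∧ p ∈ B := by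
    have hpos : 0 < min (min δ1 (p - a)) δ2 := lt_min (lt_min hδ1 (by linarith)) hδ2
    set x := p - min (min δ1 (p - a)) δ2 / 2 with hx
    have hx1 : p - min δ1 (p - a) < x := by
      have := min_le_left (min δ1 (p - a)) δ2
      linarith
    have hx2 : p - δ2 < x := by
      have := min_le_right (min δ1 (p - a)) δ2
      linarith
    have hxp : x < p := by linarith
    have hx0 := hleft x hx1 hxp
    obtain ⟨j1, j2, -⟩ := H2 x hx2 hxp
    rcases lt_or_gt_of_ne hDp with hneg | hpos'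
    · exact ⟨A', Or.inr rfl, j2 (by omega)⟩
    · exact ⟨A, Or.inl rfl, j1 (by omega)⟩
  obtain ⟨B, hB, hpB⟩ := hmem
  have hmain := hHK B hB (p + η - R) (by
    rintro x ⟨hx1, hx2⟩ hDx
    by_cases hxp : p ≤ x
    · refine ⟨p, hpB, ?_⟩
      rw [abs_le]
      constructor <;> linarith
    · rw [not_le] at hxp
      have g1 := hgood x (by linarith) hxp
      have g2 := hgood (x - η) (by linarith) (by linarith)
      unfold Bad at g1 g2
      push Not at g1 g2
      obtain ⟨z2, hz2, hz2', hz20⟩ := g1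
      obtain ⟨z1, hz1, hz1', hz10⟩ := g2
      obtain ⟨n1, n2⟩ := h.near hDx hz10 hz20 (by linarith) hz2 hz1 hz2'
      rcases hB with rfl | rfl
      · obtain ⟨b, hb, hb'⟩ := n1
        exact ⟨b, hb, hb'.le⟩
      · obtain ⟨b, hb, hb'⟩ := n2
        exact ⟨b, hb, hb'.le⟩) p hpB
  have hlow := lower hm hC k (R := R) (c := p + η - R) (b := p) (η := η) (u := p) (v := p + η / 2)
    (κ := η / 2) (by linarith) (by
      rintro x ⟨hx1, hx2⟩
      refine ⟨⟨by linarith, by linarith⟩, ⟨by linarith, by linarith⟩⟩) (by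
      rintro x ⟨hx1, hx2⟩
      exact hbad x hx1 (by linarith)) (by
      rintro x ⟨hx1, hx2⟩
      rw [abs_of_nonneg (by linarith)]
      linarith)
  have e : p + η / 2 - p = η / 2 := by ring
  rw [e] at hlow
  linarith

/-- If there is no bad point in a long window ending at `b`, there is none to the left. -/
theorem exit_left {d0 : ℝ} {A A' : Set ℝ} {D : ℝ → ℤ} (h : Dat d0 A A' D)
    (hm : Measurable (fun x => (D x : ℝ))) {C : ℝ} (hC : ∀ x, |(D x : ℝ)| ≤ C)
    {η R C3 : ℝ} {k : ℕ} (hη : 0 < η) (hR : η ≤ R) (hk : C3 < (k : ℝ) * (η / 2) * (η / 2))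
    (hHK : HK η R C3 k A A' D) {b : ℝ} (hb : ∀ x, b - 2 * R ≤ x → x ≤ b → ¬ Bad η D x) :
    ∀ x, x ≤ b → ¬ Bad η D x := by
  intro x0 hx0 hbad0
  set S : Set ℝ := {x | x ≤ b ∧ Bad η D x} with hS
  have hne : S.Nonempty := ⟨x0, hx0, hbad0⟩
  have hbdd : BddAbove S := ⟨b, fun x hx => hx.1⟩
  set p := sSup S with hp
  have hap : p ≤ b := csSup_le hne fun x hx => hx.1
  have hgood : ∀ x, p < x → x ≤ b → ¬ Bad η D x := by
    intro x hx hxp hb
    have := le_csSup hbdd (show x ∈ S from ⟨hxp, hb⟩)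
    linarith
  have hbad : Bad η D p := by
    intro y hy1 hy2
    obtain ⟨z, hz, hzy⟩ := exists_lt_of_lt_csSup hne (show y - η < p by linarith)
    have hpz : z ≤ p := le_csSup hbdd hz
    exact hz.2 y (by linarith) (by linarith)
  have hp2 : p < b - 2 * R := by
    by_contra hcon
    exact hb p (not_lt.mp hcon) hap hbad
  set q := p + η with hq
  have hDq : D q = 0 := by
    by_contra hDq
    obtain ⟨δ, hδ, H⟩ := h.right q
    have hpos : 0 < min δ (b - p) := lt_min hδ (by linarith)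
    have m1 := min_le_left δ (b - p)
    have m2 := min_le_right δ (b - p)
    apply hgood (p + min δ (b - p) / 2) (by linarith) (by linarith)
    intro y hy1 hy2
    by_cases hyq : q ≤ y
    · rw [H y hyq (by linarith)]
      exact hDq
    · rw [not_le] at hyq
      exact hbad y (by linarith) (by linarith)
  have hmem : ∃ B, (B = A ∨ B = A') ∧ q ∈ B := by
    obtain ⟨δ2, hδ2, H2⟩ := h.jump q
    have hpos : 0 < min δ2 η := lt_min hδ2 hη
    have m1 := min_le_left δ2 η
    have m2 := min_le_right δ2 η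
    set x := q - min δ2 η / 2 with hx
    obtain ⟨j1, j2, -⟩ := H2 x (by linarith) (by linarith)
    have hDx : D x ≠ 0 := hbad x (by linarith) (by linarith)
    rcases lt_or_gt_of_ne hDx with hneg | hpos'
    · exact ⟨A, Or.inl rfl, j1 (by omega)⟩
    · exact ⟨A', Or.inr rfl, j2 (by omega)⟩
  obtain ⟨B, hB, hqB⟩ := hmem
  have hmain := hHK B hB (p + R) (by
    rintro x ⟨hx1, hx2⟩ hDx
    by_cases hxq : x ≤ q
    · refine ⟨q, hqB, ?_⟩
      rw [abs_le]
      constructor <;> linarith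
    · rw [not_le] at hxq
      have g1 := hgood x (by linarith) (by linarith)
      have g2 := hgood (x - η) (by linarith) (by linarith)
      unfold Bad at g1 g2
      push Not at g1 g2
      obtain ⟨z2, hz2, hz2', hz20⟩ := g1
      obtain ⟨z1, hz1, hz1', hz10⟩ := g2
      obtain ⟨n1, n2⟩ := h.near hDx hz10 hz20 (by linarith) hz2 hz1 hz2'
      rcases hB with rfl | rfl
      · obtain ⟨b, hb, hb'⟩ := n1
        exact ⟨b, hb, hb'.le⟩
      · obtain ⟨b, hb, hb'⟩ := n2
        exact ⟨b, hb, hb'.le⟩) q hqB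
  have hlow := lower hm hC k (R := R) (c := p + R) (b := q) (η := η) (u := p + η / 2) (v := q)
    (κ := η / 2) (by linarith) (by
      rintro x ⟨hx1, hx2⟩
      refine ⟨⟨by linarith, by linarith⟩, ⟨by linarith, by linarith⟩⟩) (by
      rintro x ⟨hx1, hx2⟩
      exact hbad x (by linarith) hx2) (by
      rintro x ⟨hx1, hx2⟩
      rw [abs_of_nonpos (by linarith)]
      linarith)
  have e : q - (p + η / 2) = η / 2 := by rw [hq]; ring
  rw [e] at hlow
  linarith

/-- If there are no bad points at all, `D` vanishes. -/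
theorem vanish {d0 : ℝ} {A A' : Set ℝ} {D : ℝ → ℤ} (h : Dat d0 A A' D)
    (hm : Measurable (fun x => (D x : ℝ))) {C : ℝ} (hC : ∀ x, |(D x : ℝ)| ≤ C)
    {η C3 : ℝ} {R : ℕ → ℝ} (hR : Tendsto R atTop atTop)
    (hHK : ∀ k, 1 ≤ k → HK η (R k) C3 k A A' D) (hgood : ∀ x, ¬ Bad η D x) :
    ∀ x, D x = 0 := by
  intro x0
  by_contra hx0
  obtain ⟨δ1, hδ1, H1⟩ := h.right x0
  have near0 : ∀ x, D x ≠ 0 → (∃ b ∈ A, |x - b| < η) ∧ (∃ b ∈ A', |x - b| < η) := by
    intro x hDx
    have g1 := hgood x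
    have g2 := hgood (x - η)
    unfold Bad at g1 g2
    push Not at g1 g2
    obtain ⟨z2, hz2, hz2', hz20⟩ := g1
    obtain ⟨z1, hz1, hz1', hz10⟩ := g2
    exact h.near hDx hz10 hz20 (by linarith) hz2 hz1 hz2'
  obtain ⟨b, hb, hbx⟩ := (near0 x0 hx0).1
  set δ := min δ1 (η - |x0 - b|) with hδ
  have hδpos : 0 < δ := lt_min hδ1 (by linarith)
  have m1 := min_le_left δ1 (η - |x0 - b|)
  have m2 := min_le_right δ1 (η - |x0 - b|)
  obtain ⟨k, hk1, hk2, hk3⟩ : ∃ k : ℕ, 1 ≤ k ∧ 2 * δ ≤ R k ∧ C3 < (k : ℝ) * δ * δ := by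
    have e1 : ∀ᶠ k : ℕ in atTop, 1 ≤ k := eventually_ge_atTop 1
    have e2 : ∀ᶠ k : ℕ in atTop, 2 * δ ≤ R k := hR.eventually_ge_atTop _
    have e3 : ∀ᶠ k : ℕ in atTop, C3 / (δ * δ) < (k : ℝ) :=
      tendsto_natCast_atTop_atTop.eventually_gt_atTop _
    obtain ⟨k, hk1, hk2, hk3⟩ := (e1.and (e2.and e3)).exists
    refine ⟨k, hk1, hk2, ?_⟩
    rw [div_lt_iff₀ (by positivity)] at hk3
    linarith
  have hmain := hHK k hk1 A (Or.inl rfl) x0 (by
    intro x _ hDx
    obtain ⟨b, hb, hb'⟩ := (near0 x hDx).1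
    exact ⟨b, hb, hb'.le⟩) b hb
  rw [abs_lt] at hbx
  have habs1 : x0 - b ≤ |x0 - b| := le_abs_self _
  have habs2 : -(x0 - b) ≤ |x0 - b| := neg_le_abs _
  have hlow := lower hm hC k (R := R k) (c := x0) (b := b) (η := η) (u := x0) (v := x0 + δ)
    (κ := δ) (by linarith) (by
      rintro x ⟨hx1, hx2⟩
      refine ⟨⟨by linarith, by linarith⟩, ⟨by linarith, by linarith⟩⟩) (by
      rintro x ⟨hx1, hx2⟩
      rw [H1 x hx1.le (by linarith)]
      exact hx0) (by
      rintro x ⟨hx1, hx2⟩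
      rw [abs_of_nonneg (by linarith)]
      linarith)
  have e : x0 + δ - x0 = δ := by ring
  rw [e] at hlow
  linarith

theorem eq_of_zero {d0 : ℝ} {A A' : Set ℝ} {D : ℝ → ℤ} (h : Dat d0 A A' D)
    (h0 : ∀ x, D x = 0) : A = A' := by
  ext p
  obtain ⟨δ, hδ, H⟩ := h.jump p
  exact (H (p - δ / 2) (by linarith) (by linarith)).2.2 (by rw [h0, h0])

end Pool.Agent.Helper75.Tile
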