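import Pool.Agent.Helper75.Tile.Cnt

set_option autoImplicit false

/-!
# From the pointwise tiling condition to the integrated one, and from a period to the
periodic structure
-/

namespace Pool.Agent.Helper75.Tile

open MeasureTheory Set Filter Topology
open scoped ENNReal NNReal

/-- A tiling in the almost everywhere sense is a tiling in the integrated sense. -/
theorem isTiling_of_ae {Ω Λ : Set ℝ} (hΩ : MeasurableSet Ω) (hΛ : Λ.Countable)
    (h : ∀ᵐ x : ℝ, ∑' l : Λ, Ω.indicator (fun _ => (1 : ℝ≥0∞)) (x - l) = 1) :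
    IsTiling Ω Λ := by
  refine ⟨hΛ, fun S hS => ?_⟩
  have hc : Countable Λ := hΛ.to_subtype
  have h1 : ∀ l : Λ, volume (S ∩ sh Ω l) =
      ∫⁻ x in S, Ω.indicator (fun _ => (1 : ℝ≥0∞)) (x - l) := by
    intro l
    have e : (fun x : ℝ => Ω.indicator (fun _ => (1 : ℝ≥0∞)) (x - l)) =
        (sh Ω l).indicator (fun _ => (1 : ℝ≥0∞)) := by
      funext x
      by_cases hx : x - l ∈ Ω
      · rw [indicator_of_mem hx, indicator_of_mem (show x ∈ sh Ω l from hx)]
      · rw [indicator_of_notMem hx, indicator_of_notMem (show x ∉ sh Ω l from hx)]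
    rw [e, lintegral_indicator (measurableSet_sh hΩ l), setLIntegral_const, one_mul,
      Measure.restrict_apply (measurableSet_sh hΩ l)]
    rw [inter_comm]
  simp_rw [h1]
  rw [← lintegral_tsum]
  · rw [lintegral_congr_ae (ae_restrict_of_ae h)]
    simp
  · intro l
    exact ((measurable_const.indicator hΩ).comp (measurable_id.sub_const _)).aemeasurable

/-- Change of `Ω` on a null set. -/
theorem ae_tiling_congr {Ω Ω' Λ : Set ℝ} (hΛ : Λ.Countable) (hΩΩ' : Ω =ᵐ[volume] Ω')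
    (h : ∀ᵐ x : ℝ, ∑' l : Λ, Ω.indicator (fun _ => (1 : ℝ≥0∞)) (x - l) = 1) :
    ∀ᵐ x : ℝ, ∑' l : Λ, Ω'.indicator (fun _ => (1 : ℝ≥0∞)) (x - l) = 1 := by
  have hc : Countable Λ := hΛ.to_subtype
  have h1 : ∀ᵐ x : ℝ, ∀ l : Λ, (x - l ∈ Ω ↔ x - l ∈ Ω') := by
    rw [ae_all_iff]
    intro l
    have h2 : ∀ᵐ x : ℝ, (x ∈ Ω ↔ x ∈ Ω') := by
      filter_upwards [hΩΩ'] with x hx
      exact Iff.of_eq hx
    exact (measurePreserving_sub_right volume (l : ℝ)).quasiMeasurePreserving.ae h2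
  filter_upwards [h, h1] with x hx hx1
  refine Eq.trans (tsum_congr fun l => ?_) hx
  by_cases hxl : x - l ∈ Ω
  · rw [indicator_of_mem hxl, indicator_of_mem ((hx1 l).1 hxl)]
  · rw [indicator_of_notMem hxl, indicator_of_notMem (fun h' => hxl ((hx1 l).2 h'))]

/-- A nonempty separated set with the period `τ > 0` is a finite union of translates of `τ ℤ`. -/
theorem structure_of_period {Λ : Set ℝ} {d0 τ : ℝ} (hd : 0 < d0) (hs : Sep d0 Λ)
    (hne : Λ.Nonempty) (hτ : 0 < τ) (hper : ∀ x, x ∈ Λ ↔ x + τ ∈ Λ) :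
    ∃ (N : ℕ) (β : Fin N → ℝ), 1 ≤ N ∧
      Λ = ⋃ j : Fin N, {x : ℝ | ∃ k : ℤ, x = τ * k + β j} := by
  classical
  have hint : ∀ (k : ℤ) (x : ℝ), x ∈ Λ ↔ x + k * τ ∈ Λ := by
    intro k
    induction k using Int.induction_on with
    | zero => intro x; simp
    | succ i ih =>
      intro x
      rw [ih x, hper (x + (i : ℤ) * τ)]
      have e : x + (i : ℤ) * τ + τ = x + ((i : ℤ) + 1 : ℤ) * τ := by push_cast; ring
      rw [e]
    | pred i ih =>
      intro x
      rw [ih x, hper (x + (-(i : ℤ) - 1 : ℤ) * τ)]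
      have e : x + (-(i : ℤ) - 1 : ℤ) * τ + τ = x + (-(i : ℤ) : ℤ) * τ := by push_cast; ring
      rw [e]
  have hfin : (Λ ∩ Ico 0 τ).Finite :=
    (finite_inter hd hs 0 τ).subset (inter_subset_inter_right _ Ico_subset_Icc_self)
  set F := hfin.toFinset with hF
  have hmod : ∀ x ∈ Λ, x - ⌊x / τ⌋ * τ ∈ F := by
    intro x hx
    rw [hF, Set.Finite.mem_toFinset]
    refine ⟨?_, ?_, ?_⟩
    · have := (hint (-⌊x / τ⌋) x).1 hx
      have e : x + ((-⌊x / τ⌋ : ℤ) : ℝ) * τ = x - ⌊x / τ⌋ * τ := by push_cast; ring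
      rwa [e] at this
    · have h1 := Int.floor_le (x / τ)
      rw [le_div_iff₀ hτ] at h1
      linarith
    · have h1 := Int.lt_floor_add_one (x / τ)
      rw [div_lt_iff₀ hτ] at h1
      linarith
  obtain ⟨x0, hx0⟩ := hne
  have hcard : 1 ≤ F.card := Finset.card_pos.mpr ⟨_, hmod x0 hx0⟩
  refine ⟨F.card, fun j => (F.equivFin.symm j : ℝ), hcard, ?_⟩
  ext x
  simp only [mem_iUnion, mem_ofPred_eq]
  constructor
  · intro hx
    refine ⟨F.equivFin ⟨_, hmod x hx⟩, ⌊x / τ⌋, ?_⟩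
    simp
    ring
  · rintro ⟨j, k, hk⟩
    have h0 : (F.equivFin.symm j : ℝ) ∈ F := (F.equivFin.symm j).2
    have h1 : (F.equivFin.symm j : ℝ) ∈ Λ ∩ Ico 0 τ := hfin.mem_toFinset.1 h0
    have h2 := (hint k _).1 h1.1
    rw [hk]
    have e : τ * (k : ℝ) + (F.equivFin.symm j : ℝ) = (F.equivFin.symm j : ℝ) + k * τ := by ring
    rw [e]
    exact h2

/-- A tiling is not empty. -/
theorem IsTiling.nonempty {Ω Λ : Set ℝ} (h : IsTiling Ω Λ) : Λ.Nonempty := by
  by_contra hne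
  rw [not_nonempty_iff_eq_empty] at hne
  subst hne
  have := h.2 univ MeasurableSet.univ
  simp at this

end Pool.Agent.Helper75.Tile
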