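import Pool.Agent.Helper75.Tile.Core
import Pool.Agent.Helper75.Tile.Per
import Pool.Agent.Helper99.TileCnt

set_option autoImplicit false

/-!
# Every level one tiling of the line by a set of finite measure is periodic
-/

namespace Pool.Agent.Helper75.Tile

open MeasureTheory Set Filter Topology
open scoped ENNReal NNReal

/-- Every integrated level one tiling has the period `l |Ω|` for some `l ≥ 1`. -/
theorem exists_period {Ω Λ : Set ℝ} (hΩ : MeasurableSet Ω) (h0 : 0 < volume Ω)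
    (h1 : volume Ω ≠ ∞) (hΛ : IsTiling Ω Λ) :
    ∃ l : ℕ, 1 ≤ l ∧ ∀ x, x ∈ Λ ↔ x + l * (volume Ω).toReal ∈ Λ := by
  apply periodic_core hΩ h0 h1 hΛ
  · intro l _
    exact Pool.Agent.Helper99.Tile.Dl_measurable hΩ h0 h1 hΛ _ _
  · intro l _ x
    exact Pool.Agent.Helper99.Tile.Dl_annihilated hΩ h0 h1 hΛ l x
  · obtain ⟨C, hC⟩ := Pool.Agent.Helper99.Tile.Dl_bounded hΩ h0 h1
    exact ⟨C, fun l _ x => hC Λ hΛ l x⟩
  · exact fun t => Pool.Agent.Helper99.Tile.shift_tiling hΛ t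

/-- **Main theorem.** -/
theorem structure_theorem (Ω Λ : Set ℝ) (hΩ : NullMeasurableSet Ω volume) (h0 : volume Ω ≠ 0)
    (h1 : volume Ω ≠ ∞) (hΛ : Λ.Countable)
    (h : ∀ᵐ x : ℝ, ∑' l : Λ, Ω.indicator (fun _ => (1 : ℝ≥0∞)) (x - l) = 1) :
    ∃ (α : ℝ) (N : ℕ) (β : Fin N → ℝ), 0 < α ∧ 1 ≤ N ∧
      (∃ l : ℕ, α = l * (volume Ω).toReal) ∧
      Λ = ⋃ j : Fin N, {x : ℝ | ∃ k : ℤ, x = α * k + β j} := by
  obtain ⟨Ω', -, hΩ', hae⟩ := hΩ.exists_measurable_superset_ae_eq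
  have hvol : volume Ω' = volume Ω := measure_congr hae
  have h' := ae_tiling_congr hΛ hae.symm h
  have hT : IsTiling Ω' Λ := isTiling_of_ae hΩ' hΛ h'
  have h0' : 0 < volume Ω' := by rw [hvol]; exact pos_iff_ne_zero.mpr h0
  have h1' : volume Ω' ≠ ∞ := by rw [hvol]; exact h1
  obtain ⟨l, hl, hper⟩ := exists_period hΩ' h0' h1' hT
  obtain ⟨d0, hd0, hsep⟩ := separated hΩ' h0' h1'
  rw [hvol] at hper
  have hm : 0 < (volume Ω).toReal := ENNReal.toReal_pos h0 h1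
  have hτ : 0 < (l : ℝ) * (volume Ω).toReal := by positivity
  obtain ⟨N, β, hN, hβ⟩ := structure_of_period hd0
    (fun b hb b' hb' hne => hsep Λ hT b hb b' hb' hne) hT.nonempty hτ hper
  exact ⟨l * (volume Ω).toReal, N, β, hτ, hN, ⟨l, rfl⟩, hβ⟩

end Pool.Agent.Helper75.Tile
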