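import Pool.Agent.Helper75.Tile.Cells

set_option autoImplicit false

/-!
# Geometry of tilings: overlaps, separation, cells
-/

namespace Pool.Agent.Helper75.Tile

open MeasureTheory Set Filter Topology
open scoped ENNReal NNReal

variable {Ω B : Set ℝ}

theorem sh_eq_preimage (Ω : Set ℝ) (t : ℝ) : sh Ω t = (fun x => x - t) ⁻¹' Ω := rfl

theorem measurableSet_sh (hΩ : MeasurableSet Ω) (t : ℝ) : MeasurableSet (sh Ω t) :=
  (measurable_id.sub_const t) hΩ

theorem volume_sh (Ω : Set ℝ) (t : ℝ) : volume (sh Ω t) = volume Ω := by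
  have : sh Ω t = (fun x => x + (-t)) ⁻¹' Ω := by
    ext x
    simp only [sh, mem_ofPred_eq, mem_preimage, sub_eq_add_neg]
  rw [this]
  exact measure_preimage_add_right volume (-t) Ω

theorem sh_sh (Ω : Set ℝ) (s t : ℝ) : sh (sh Ω s) t = sh Ω (s + t) := by
  ext x
  simp only [sh, mem_ofPred_eq]
  have : x - t - s = x - (s + t) := by ring
  rw [this]

theorem sh_inter_vol (Ω : Set ℝ) (s t : ℝ) :
    volume (sh Ω s ∩ sh Ω t) = volume (Ω ∩ sh Ω (t - s)) := by
  have : sh Ω s ∩ sh Ω t = sh (Ω ∩ sh Ω (t - s)) s := by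
    ext x
    simp only [sh, mem_inter_iff, mem_ofPred_eq]
    have : x - s - (t - s) = x - t := by ring
    rw [this]
  rw [this, volume_sh]

theorem small_shift (hΩ : MeasurableSet Ω) (h1 : volume Ω ≠ ∞) {κ : ℝ} (hκ : 0 < κ) :
    ∃ δ > 0, ∀ t, |t| ≤ δ → (volume Ω).toReal - κ ≤ (volume (Ω ∩ sh Ω t)).toReal := by
  have hcont : Continuous (fun p : ℝ × ℝ => p.2 - p.1) := continuous_snd.sub continuous_fst
  let f : C(ℝ, C(ℝ, ℝ)) := ContinuousMap.curry ⟨fun p : ℝ × ℝ => p.2 - p.1, hcont⟩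
  have hf : Tendsto f (𝓝 0) (𝓝 (f 0)) := f.continuous.tendsto 0
  have hmp : ∀ t, MeasurePreserving (f t) (volume : Measure ℝ) volume := by
    intro t
    exact measurePreserving_sub_right volume t
  have key := tendsto_measure_symmDiff_preimage_nhds_zero (s := Ω) hf
    (Eventually.of_forall hmp) (hmp 0) hΩ.nullMeasurableSet h1
  rw [ENNReal.tendsto_nhds_zero] at key
  have h2 := key (ENNReal.ofReal κ) (by positivity)
  rw [Metric.eventually_nhds_iff] at h2
  obtain ⟨ε, hε, h3⟩ := h2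
  refine ⟨ε / 2, by positivity, fun t ht => ?_⟩
  have h4 := h3 (y := t) (by rw [Real.dist_eq, sub_zero]; linarith)
  have e1 : (f t) ⁻¹' Ω = sh Ω t := rfl
  have e2 : (f 0) ⁻¹' Ω = Ω := by
    ext x
    change x - 0 ∈ Ω ↔ x ∈ Ω
    rw [sub_zero]
  rw [e1, e2] at h4
  have h5 : volume (Ω \ sh Ω t) ≤ ENNReal.ofReal κ := by
    refine (measure_mono ?_).trans h4
    exact le_sup_right
  have h6 : volume Ω ≤ volume (Ω ∩ sh Ω t) + volume (Ω \ sh Ω t) := by
    calc volume Ω = volume ((Ω ∩ sh Ω t) ∪ (Ω \ sh Ω t)) := by rw [inter_union_sdiff]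
      _ ≤ _ := measure_union_le _ _
  have h7 : volume (Ω ∩ sh Ω t) ≠ ∞ := ne_top_of_le_ne_top h1 (measure_mono inter_subset_left)
  have h8 : volume Ω ≤ volume (Ω ∩ sh Ω t) + ENNReal.ofReal κ :=
    h6.trans (add_le_add le_rfl h5)
  have h9 := ENNReal.toReal_mono (ENNReal.add_ne_top.mpr ⟨h7, ENNReal.ofReal_ne_top⟩) h8
  rw [ENNReal.toReal_add h7 ENNReal.ofReal_ne_top, ENNReal.toReal_ofReal hκ.le] at h9
  linarith

theorem IsTiling.disj (hΩ : MeasurableSet Ω) (h1 : volume Ω ≠ ∞) (hB : IsTiling Ω B) {b b' : ℝ}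
    (hb : b ∈ B) (hb' : b' ∈ B) (hne : b ≠ b') : volume (sh Ω b ∩ sh Ω b') = 0 := by
  obtain ⟨-, h⟩ := hB
  have h2 := h (sh Ω b) (measurableSet_sh hΩ b)
  rw [ENNReal.tsum_eq_add_tsum_ite (⟨b, hb⟩ : B)] at h2
  simp only [inter_self] at h2
  have hfin : volume (sh Ω b) ≠ ∞ := by rw [volume_sh]; exact h1
  have h3 := (ENNReal.add_right_inj hfin).mp (h2.trans (add_zero _).symm)
  rw [ENNReal.tsum_eq_zero] at h3
  have h4 := h3 ⟨b', hb'⟩
  rw [if_neg] at h4
  · exact h4
  · intro h5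
    exact hne (congrArg Subtype.val h5).symm

theorem separated (hΩ : MeasurableSet Ω) (h0 : 0 < volume Ω) (h1 : volume Ω ≠ ∞) :
    ∃ d0 > 0, ∀ B, IsTiling Ω B → ∀ b ∈ B, ∀ b' ∈ B, b ≠ b' → d0 ≤ |b - b'| := by
  have hm : 0 < (volume Ω).toReal := ENNReal.toReal_pos h0.ne' h1
  obtain ⟨δ, hδ, h⟩ := small_shift hΩ h1 (half_pos hm)
  refine ⟨δ, hδ, fun B hB b hb b' hb' hne => ?_⟩
  by_contra hcon
  rw [not_le] at hcon
  have h2 := hB.disj hΩ h1 hb hb' hne
  rw [sh_inter_vol] at h2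
  have h3 := h (b' - b) (by rw [abs_sub_comm]; exact hcon.le)
  rw [h2] at h3
  simp at h3
  linarith

theorem finite_inter {d0 : ℝ} (hd : 0 < d0) (h : ∀ b ∈ B, ∀ b' ∈ B, b ≠ b' → d0 ≤ |b - b'|)
    (x y : ℝ) : (B ∩ Icc x y).Finite := by
  -- map b to floor of b / d0 : injective
  have hinj : Set.InjOn (fun b : ℝ => ⌊b / d0⌋) (B ∩ Icc x y) := by
    intro b hb b' hb' he
    by_contra hne
    have h2 := h b hb.1 b' hb'.1 hne
    simp only at he
    have h3 : |b / d0 - b' / d0| < 1 := by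
      have e1 := Int.floor_le (b / d0)
      have e2 := Int.lt_floor_add_one (b / d0)
      have e3 := Int.floor_le (b' / d0)
      have e4 := Int.lt_floor_add_one (b' / d0)
      rw [he] at e1 e2
      rw [abs_lt]
      constructor <;> linarith
    rw [← sub_div, abs_div, abs_of_pos hd, div_lt_one hd] at h3
    linarith
  apply Set.Finite.of_finite_image _ hinj
  apply (Set.finite_Icc ⌊x / d0⌋ ⌊y / d0⌋).subset
  rintro _ ⟨b, hb, rfl⟩
  simp only [mem_Icc]
  constructor
  · exact Int.floor_le_floor (div_le_div_of_nonneg_right hb.2.1 hd.le)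
  · exact Int.floor_le_floor (div_le_div_of_nonneg_right hb.2.2 hd.le)

theorem ae_sum_le_one (F : Finset ℝ)
    (hF : ∀ b ∈ F, ∀ b' ∈ F, b ≠ b' → volume (sh Ω b ∩ sh Ω b') = 0) :
    ∀ᵐ z : ℝ, ∑ b ∈ F, Ω.indicator (fun _ => (1 : ℝ)) (z - b) ≤ 1 := by
  have h1 : ∀ᵐ z : ℝ, ∀ b ∈ F, ∀ b' ∈ F, b ≠ b' → z ∉ sh Ω b ∩ sh Ω b' := by
    rw [Filter.eventually_all_finset]
    intro b hb
    rw [Filter.eventually_all_finset]
    intro b' hb'
    by_cases hne : b = b'
    · exact ae_of_all _ fun z h => absurd hne h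
    · have := hF b hb b' hb' hne
      have h2 : ∀ᵐ z : ℝ, z ∉ sh Ω b ∩ sh Ω b' := measure_eq_zero_iff_ae_notMem.mp this
      exact h2.mono fun z hz _ => hz
  refine h1.mono fun z hz => ?_
  by_cases hex : ∃ b ∈ F, z - b ∈ Ω
  · obtain ⟨b, hb, hzb⟩ := hex
    rw [Finset.sum_eq_single_of_mem b hb]
    · rw [indicator_of_mem hzb]
    · intro b' hb' hne
      rw [indicator_of_notMem]
      intro h3
      exact hz b hb b' hb' (Ne.symm hne) ⟨hzb, h3⟩
  · push Not at hex
    rw [Finset.sum_eq_zero]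
    · exact zero_le_one
    · intro b hb
      exact indicator_of_notMem (hex b hb) _

/-- Indicator of a cell. -/
noncomputable def ci (r b : ℝ) : ℝ → ℝ := (cell r b).indicator (fun _ => (1 : ℝ))

theorem nice_ind {S : Set ℝ} (hS : MeasurableSet S) (h : volume S ≠ ∞) :
    Nice (S.indicator (fun _ => (1 : ℝ))) := by
  refine ⟨⟨measurable_const.indicator hS, 1, fun x => ?_⟩, ?_⟩
  · by_cases hx : x ∈ S
    · simp [indicator_of_mem hx]
    · simp [indicator_of_notMem hx]
  · exact (integrable_indicator_iff hS).mpr (by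
      rw [IntegrableOn]
      exact integrable_const_iff.mpr (Or.inr ⟨by
        simpa using lt_top_iff_ne_top.mpr h⟩))

theorem nice_ci (r b : ℝ) : Nice (ci r b) := by
  apply nice_ind measurableSet_Icc
  simp

theorem ci_nonneg (r b x : ℝ) : 0 ≤ ci r b x := indicator_nonneg (fun _ _ => zero_le_one) x

theorem integral_ci {r : ℝ} (hr : 0 < r) (b : ℝ) : ∫ x, ci r b x = 3 * r := by
  unfold ci cell
  rw [integral_indicator_const _ measurableSet_Icc]
  simp only [Measure.real, Real.volume_Icc, smul_eq_mul, mul_one]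
  rw [ENNReal.toReal_ofReal (by linarith)]
  ring

theorem T_ci (hΩ : MeasurableSet Ω) (r b x : ℝ) :
    T (volume.restrict Ω) (ci r b) x =
      ∫ s in Icc (-r) (2 * r), Ω.indicator (fun _ => (1 : ℝ)) (x - s - b) := by
  unfold T
  rw [← integral_indicator hΩ, ← integral_indicator measurableSet_Icc]
  have h1 := integral_sub_left_eq_self (μ := (volume : Measure ℝ))
    (fun y => Ω.indicator (fun y => ci r b (x - y)) y) (x - b)
  rw [← h1]
  refine integral_congr_ae (ae_of_all _ fun s => ?_)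
  simp only
  by_cases h2 : x - b - s ∈ Ω
  · have h3 : x - s - b ∈ Ω := by
      have : x - s - b = x - b - s := by ring
      rwa [this]
    rw [indicator_of_mem h2]
    by_cases h4 : s ∈ Icc (-r) (2 * r)
    · rw [indicator_of_mem h4, indicator_of_mem h3]
      unfold ci
      rw [indicator_of_mem]
      simp only [cell, mem_Icc] at h4 ⊢
      constructor <;> linarith [h4.1, h4.2]
    · rw [indicator_of_notMem h4]
      unfold ci
      rw [indicator_of_notMem]
      simp only [cell, mem_Icc, not_and_or, not_le] at h4 ⊢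
      rcases h4 with h4 | h4
      · left; linarith
      · right; linarith
  · have h3 : x - s - b ∉ Ω := by
      have : x - s - b = x - b - s := by ring
      rwa [this]
    rw [indicator_of_notMem h2]
    by_cases h4 : s ∈ Icc (-r) (2 * r)
    · rw [indicator_of_mem h4, indicator_of_notMem h3]
    · rw [indicator_of_notMem h4]

theorem sum_T_ci_le (hΩ : MeasurableSet Ω) {r : ℝ} (hr : 0 < r) (F : Finset ℝ)
    (hF : ∀ b ∈ F, ∀ b' ∈ F, b ≠ b' → volume (sh Ω b ∩ sh Ω b') = 0) (x : ℝ) :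
    ∑ b ∈ F, T (volume.restrict Ω) (ci r b) x ≤ 3 * r := by
  simp_rw [T_ci hΩ]
  have hint : ∀ b ∈ F, Integrable (fun s => Ω.indicator (fun _ => (1 : ℝ)) (x - s - b))
      (volume.restrict (Icc (-r) (2 * r))) := by
    intro b _
    refine Integrable.of_bound (C := 1) ?_ (ae_of_all _ fun s => ?_)
    · have hm : Measurable (Ω.indicator (fun _ => (1 : ℝ))) := measurable_const.indicator hΩ
      exact (hm.comp ((measurable_const.sub measurable_id).sub measurable_const)).aestronglyMeasurable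
    · by_cases h : x - s - b ∈ Ω
      · simp [indicator_of_mem h]
      · simp [indicator_of_notMem h]
  rw [← integral_finsetSum F hint]
  have hae := ae_sum_le_one F hF
  have hae2 : ∀ᵐ s : ℝ, ∑ b ∈ F, Ω.indicator (fun _ => (1 : ℝ)) (x - s - b) ≤ 1 := by
    have hq : Measure.QuasiMeasurePreserving (fun s : ℝ => x - s) volume volume :=
      (Measure.measurePreserving_sub_left volume x).quasiMeasurePreserving
    exact hq.ae hae
  calc ∫ s in Icc (-r) (2 * r), ∑ b ∈ F, Ω.indicator (fun _ => (1 : ℝ)) (x - s - b)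
      ≤ ∫ s in Icc (-r) (2 * r), (1 : ℝ) := by
        apply integral_mono_ae (integrable_finsetSum F hint) (integrable_const _)
        exact ae_restrict_of_ae hae2
    _ = 3 * r := by
        rw [setIntegral_const]
        simp only [Measure.real, Real.volume_Icc, smul_eq_mul, mul_one]
        rw [ENNReal.toReal_ofReal (by linarith)]
        ring

theorem T_neg_ind (hΩ : MeasurableSet Ω) (b u : ℝ) :
    T ((volume.restrict Ω).map (fun y => -y)) ((sh Ω b).indicator (fun _ => (1 : ℝ))) u =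
      (volume (Ω ∩ sh Ω (b - u))).toReal := by
  rw [T_neg_apply]
  have e : ∀ y, (sh Ω b).indicator (fun _ => (1 : ℝ)) (u + y) =
      (sh Ω (b - u)).indicator (fun _ => (1 : ℝ)) y := by
    intro y
    have : u + y ∈ sh Ω b ↔ y ∈ sh Ω (b - u) := by
      simp only [sh, mem_ofPred_eq]
      have : u + y - b = y - (b - u) := by ring
      rw [this]
    by_cases h : y ∈ sh Ω (b - u)
    · rw [indicator_of_mem h, indicator_of_mem (this.mpr h)]
    · rw [indicator_of_notMem h, indicator_of_notMem (fun h' => h (this.mp h'))]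
  simp_rw [e]
  rw [integral_indicator_const _ (measurableSet_sh hΩ _)]
  simp only [Measure.real, smul_eq_mul, mul_one]
  rw [Measure.restrict_apply (measurableSet_sh hΩ _), inter_comm]

theorem cell_lower (hΩ : MeasurableSet Ω) (h1 : volume Ω ≠ ∞) {r κ : ℝ}
    (hκm : κ ≤ (volume Ω).toReal) (h0 : 0 < (volume Ω).toReal)
    (hov : ∀ t, |t| ≤ 2 * r → (volume Ω).toReal - κ ≤ (volume (Ω ∩ sh Ω t)).toReal)
    {b : ℝ} {h : ℝ → ℝ} (hN : Nice h) (hnn : ∀ x, 0 ≤ h x) (hs : ∀ x, x ∉ cell r b → h x = 0) :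
    ((volume Ω).toReal - 2 * κ) * (∫ x, h x) ^ 2 ≤ ∫ x, T (volume.restrict Ω) h x ^ 2 := by
  have hfin : IsFiniteMeasure (volume.restrict Ω) := ⟨by
    rw [Measure.restrict_apply_univ]; exact lt_top_iff_ne_top.mpr h1⟩
  set m := (volume Ω).toReal with hm
  have hshfin : volume (sh Ω b) ≠ ∞ := by rw [volume_sh]; exact h1
  have hI := nice_ind (measurableSet_sh hΩ b) hshfin
  have hcs := cs (hN.conv (ν := volume.restrict Ω)) hI
  have hI2 : ∫ x, (sh Ω b).indicator (fun _ => (1 : ℝ)) x ^ 2 = m := by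
    have : ∀ x, (sh Ω b).indicator (fun _ => (1 : ℝ)) x ^ 2 =
        (sh Ω b).indicator (fun _ => (1 : ℝ)) x := by
      intro x
      by_cases hx : x ∈ sh Ω b
      · simp [indicator_of_mem hx]
      · simp [indicator_of_notMem hx]
    simp_rw [this]
    rw [integral_indicator_const _ (measurableSet_sh hΩ _)]
    simp only [Measure.real, smul_eq_mul, mul_one, volume_sh, hm]
  rw [hI2, adjoint hN hI.1] at hcs
  have hlow : (m - κ) * ∫ x, h x ≤
      ∫ x, h x * T ((volume.restrict Ω).map (fun y => -y))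
        ((sh Ω b).indicator (fun _ => (1 : ℝ))) x := by
    rw [← integral_const_mul]
    apply integral_mono (hN.2.const_mul _) (hN.mul hI.1.conv)
    intro x
    simp only
    by_cases hx : x ∈ cell r b
    · rw [T_neg_ind hΩ, mul_comm]
      apply mul_le_mul_of_nonneg_left _ (hnn x)
      apply hov
      simp only [cell, mem_Icc] at hx
      rw [abs_le]
      constructor <;> linarith [hx.1, hx.2]
    · rw [hs x hx]
      simp
  have hint : 0 ≤ ∫ x, h x := integral_nonneg hnn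
  have hmk : 0 ≤ m - κ := by linarith
  have h3 : ((m - κ) * ∫ x, h x) ^ 2 ≤ (∫ x, T (volume.restrict Ω) h x ^ 2) * m :=
    (pow_le_pow_left₀ (mul_nonneg hmk hint) hlow 2).trans hcs
  have h4 : (m - 2 * κ) * (∫ x, h x) ^ 2 * m ≤ ((m - κ) * ∫ x, h x) ^ 2 := by
    have : ((m - κ) * ∫ x, h x) ^ 2 - (m - 2 * κ) * (∫ x, h x) ^ 2 * m =
        κ ^ 2 * (∫ x, h x) ^ 2 := by ring
    nlinarith [sq_nonneg (κ * ∫ x, h x)]
  exact le_of_mul_le_mul_right (h4.trans h3) h0

end Pool.Agent.Helper75.Tile
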