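import Pool.Agent.Helper75.Tile.Geo

set_option autoImplicit false

/-!
# The key inequality
-/

namespace Pool.Agent.Helper75.Tile

open MeasureTheory Set Filter Topology
open scoped ENNReal NNReal

variable {Ω : Set ℝ}

theorem T_zero' {ν : Measure ℝ} (x : ℝ) : T ν (fun _ => (0 : ℝ)) x = 0 := by
  unfold T
  simp

theorem T_sum {ν : Measure ℝ} [IsFiniteMeasure ν] (F : Finset ℝ) (s : ℝ → ℝ) (g : ℝ → ℝ → ℝ)
    (hg : ∀ b ∈ F, Bd (g b)) (x : ℝ) :
    T ν (fun x => ∑ b ∈ F, s b * g b x) x = ∑ b ∈ F, s b * T ν (g b) x := by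
  unfold T
  rw [integral_finsetSum]
  · refine Finset.sum_congr rfl fun b _ => ?_
    rw [integral_const_mul]
  · intro b hb
    exact ((hg b hb).integrable_shift x).const_mul _

theorem pt_lower (F : Finset ℝ) (s a c V : ℝ → ℝ) {r : ℝ} (hr : 0 < r)
    (hs : ∀ b ∈ F, s b ^ 2 = 1) (ha : ∀ b ∈ F, 0 ≤ a b) (hc : ∀ b ∈ F, 0 ≤ c b)
    (hac : ∀ b ∈ F, a b ≤ V b / r * c b) (hcs : ∑ b ∈ F, c b ≤ 3 * r) :
    ∑ b ∈ F, a b ^ 2 - ∑ b ∈ F, (V b ^ 2 / r ^ 2) * (c b * (3 * r - c b)) ≤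
      (∑ b ∈ F, s b * a b) ^ 2 := by
  classical
  have e1 : (∑ b ∈ F, s b * a b) ^ 2 = ∑ b ∈ F, ∑ b' ∈ F, (s b * a b) * (s b' * a b') := by
    rw [pow_two, Finset.sum_mul_sum]
  set M : ℝ → ℝ → ℝ := fun b b' => if b = b' then 0 else V b ^ 2 / (2 * r ^ 2) * (c b * c b')
    with hM
  have h1 : ∑ b ∈ F, a b ^ 2 ≤ ∑ b ∈ F, ∑ b' ∈ F, ((s b * a b) * (s b' * a b') +
      (M b b' + M b' b)) := by
    apply Finset.sum_le_sum
    intro b hb
    have : a b ^ 2 = ∑ b' ∈ F, if b = b' then a b ^ 2 else 0 := by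
      rw [Finset.sum_ite_eq]
      simp [hb]
    rw [this]
    apply Finset.sum_le_sum
    intro b' hb'
    by_cases h : b = b'
    · subst h
      simp only [hM, if_true]
      have := hs b hb
      nlinarith
    · have h' : b' ≠ b := fun h2 => h h2.symm
      simp only [hM, if_neg h, if_neg h']
      have s1 := hs b hb
      have s2 := hs b' hb'
      have hss : -1 ≤ s b * s b' := by nlinarith [sq_nonneg (s b + s b')]
      have p1 : 0 ≤ a b * a b' := mul_nonneg (ha b hb) (ha b' hb')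
      have p2 : a b * a b' ≤ (V b / r * c b) * (V b' / r * c b') :=
        mul_le_mul (hac b hb) (hac b' hb') (ha b' hb') ((ha b hb).trans (hac b hb))
      have p3 : (V b / r * c b) * (V b' / r * c b') ≤
          V b ^ 2 / (2 * r ^ 2) * (c b * c b') + V b' ^ 2 / (2 * r ^ 2) * (c b' * c b) := by
        have hcc : 0 ≤ c b * c b' := mul_nonneg (hc b hb) (hc b' hb')
        have e2 : V b ^ 2 / (2 * r ^ 2) * (c b * c b') + V b' ^ 2 / (2 * r ^ 2) * (c b' * c b) -
            (V b / r * c b) * (V b' / r * c b') = (V b - V b') ^ 2 / (2 * r ^ 2) * (c b * c b') := by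
          field_simp
          ring
        have : 0 ≤ (V b - V b') ^ 2 / (2 * r ^ 2) * (c b * c b') := by positivity
        linarith
      nlinarith
  have h2 : ∑ b ∈ F, ∑ b' ∈ F, ((s b * a b) * (s b' * a b') + (M b b' + M b' b)) =
      (∑ b ∈ F, s b * a b) ^ 2 + 2 * ∑ b ∈ F, ∑ b' ∈ F, M b b' := by
    rw [e1]
    simp only [Finset.sum_add_distrib]
    have : ∑ b ∈ F, ∑ b' ∈ F, M b' b = ∑ b ∈ F, ∑ b' ∈ F, M b b' := Finset.sum_comm
    rw [this]
    ring
  have h3 : 2 * ∑ b ∈ F, ∑ b' ∈ F, M b b' ≤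
      ∑ b ∈ F, (V b ^ 2 / r ^ 2) * (c b * (3 * r - c b)) := by
    rw [Finset.mul_sum]
    apply Finset.sum_le_sum
    intro b hb
    have e3 : ∑ b' ∈ F, M b b' = V b ^ 2 / (2 * r ^ 2) * (c b * (∑ b' ∈ F, c b' - c b)) := by
      have : ∀ b' ∈ F, M b b' = V b ^ 2 / (2 * r ^ 2) * (c b * c b') -
          (if b = b' then V b ^ 2 / (2 * r ^ 2) * (c b * c b) else 0) := by
        intro b' _
        by_cases h : b = b'
        · subst h
          simp [hM]
        · simp [hM, h]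
      rw [Finset.sum_congr rfl this, Finset.sum_sub_distrib, Finset.sum_ite_eq]
      simp only [hb, if_true]
      rw [← Finset.mul_sum, ← Finset.mul_sum]
      ring
    rw [e3]
    have p1 : c b * (∑ b' ∈ F, c b' - c b) ≤ c b * (3 * r - c b) :=
      mul_le_mul_of_nonneg_left (by linarith) (hc b hb)
    have e4 : 2 * (V b ^ 2 / (2 * r ^ 2) * (c b * (∑ b' ∈ F, c b' - c b))) =
        V b ^ 2 / r ^ 2 * (c b * (∑ b' ∈ F, c b' - c b)) := by
      field_simp
    rw [e4]
    exact mul_le_mul_of_nonneg_left p1 (by positivity)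
  linarith

theorem key_lower (hΩ : MeasurableSet Ω) (h1 : volume Ω ≠ ∞) {r κ : ℝ} (hr : 0 < r)
    (hκm : κ ≤ (volume Ω).toReal) (h0 : 0 < (volume Ω).toReal)
    (hov : ∀ t, |t| ≤ 2 * r → (volume Ω).toReal - κ ≤ (volume (Ω ∩ sh Ω t)).toReal)
    (F : Finset ℝ) (hF : ∀ b ∈ F, ∀ b' ∈ F, b ≠ b' → volume (sh Ω b ∩ sh Ω b') = 0)
    (s : ℝ → ℝ) (hs : ∀ b ∈ F, s b ^ 2 = 1) (g : ℝ → ℝ → ℝ) (hg : ∀ b ∈ F, Nice (g b))
    (hg0 : ∀ b ∈ F, ∀ x, 0 ≤ g b x) (hgs : ∀ b ∈ F, ∀ x, r < |x - b| → g b x = 0) :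
    ((volume Ω).toReal - 20 * κ) * ∑ b ∈ F, (∫ x, g b x) ^ 2 ≤
      ∫ x, T (volume.restrict Ω) (T (kap r) (fun x => ∑ b ∈ F, s b * g b x)) x ^ 2 := by
  have hfin : IsFiniteMeasure (volume.restrict Ω) := ⟨by
    rw [Measure.restrict_apply_univ]; exact lt_top_iff_ne_top.mpr h1⟩
  set m := (volume Ω).toReal with hm
  have hmu : (volume.restrict Ω).real univ = m := by
    simp [Measure.real, hm]
  set μ := volume.restrict Ω with hμ
  set V : ℝ → ℝ := fun b => ∫ x, g b x with hV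
  have e1 : ∀ x, T μ (T (kap r) (fun x => ∑ b ∈ F, s b * g b x)) x =
      ∑ b ∈ F, s b * T μ (T (kap r) (g b)) x := by
    intro x
    have : T (kap r) (fun x => ∑ b ∈ F, s b * g b x) =
        fun x => ∑ b ∈ F, s b * T (kap r) (g b) x := by
      funext y
      exact T_sum F s g (fun b hb => (hg b hb).1) y
    rw [this]
    exact T_sum F s (fun b => T (kap r) (g b)) (fun b hb => (hg b hb).1.conv) x
  simp_rw [e1]
  have hVnn : ∀ b ∈ F, 0 ≤ V b := fun b hb => integral_nonneg (hg0 b hb)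
  -- h_b
  have hh0 : ∀ b ∈ F, ∀ x, 0 ≤ T (kap r) (g b) x := fun b hb x => T_kap_nonneg hr (hg0 b hb) x
  have hhle : ∀ b ∈ F, ∀ x, T (kap r) (g b) x ≤ V b / r * ci r b x := by
    intro b hb x
    by_cases hx : x ∈ cell r b
    · have : ci r b x = 1 := indicator_of_mem hx _
      rw [this, mul_one]
      exact T_kap_le hr (hg b hb) (hg0 b hb) x
    · rw [T_kap_supp hr (hgs b hb) hx]
      exact mul_nonneg (div_nonneg (hVnn b hb) hr.le) (ci_nonneg _ _ _)
  have hw0 : ∀ b ∈ F, ∀ x, 0 ≤ T μ (T (kap r) (g b)) x := by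
    intro b hb x
    exact integral_nonneg fun y => hh0 b hb _
  have hc0 : ∀ b ∈ F, ∀ x, 0 ≤ T μ (ci r b) x := by
    intro b hb x
    exact integral_nonneg fun y => ci_nonneg _ _ _
  have hwle : ∀ b ∈ F, ∀ x, T μ (T (kap r) (g b)) x ≤ V b / r * T μ (ci r b) x := by
    intro b hb x
    unfold T
    rw [← integral_const_mul]
    apply integral_mono
    · exact (hg b hb).1.conv.integrable_shift x
    · exact ((nice_ci r b).1.integrable_shift x).const_mul _
    · intro y
      exact hhle b hb (x - y)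
  have hpt : ∀ x, ∑ b ∈ F, T μ (T (kap r) (g b)) x ^ 2 -
      ∑ b ∈ F, (V b ^ 2 / r ^ 2) * (T μ (ci r b) x * (3 * r - T μ (ci r b) x)) ≤
      (∑ b ∈ F, s b * T μ (T (kap r) (g b)) x) ^ 2 := by
    intro x
    exact pt_lower F s (fun b => T μ (T (kap r) (g b)) x) (fun b => T μ (ci r b) x) V hr hs
      (fun b hb => hw0 b hb x) (fun b hb => hc0 b hb x) (fun b hb => hwle b hb x)
      (sum_T_ci_le hΩ hr F hF x)
  have i1 : ∀ b ∈ F, Integrable (fun x => T μ (T (kap r) (g b)) x ^ 2) := fun b hb =>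
    (hg b hb).conv.conv.sq
  have i2 : ∀ b ∈ F, Integrable
      (fun x => (V b ^ 2 / r ^ 2) * (T μ (ci r b) x * (3 * r - T μ (ci r b) x))) := by
    intro b hb
    apply Integrable.const_mul
    have : (fun x => T μ (ci r b) x * (3 * r - T μ (ci r b) x)) =
        fun x => (3 * r) * T μ (ci r b) x - T μ (ci r b) x ^ 2 := by
      funext x
      ring
    rw [this]
    exact ((nice_ci r b).conv.2.const_mul _).sub (nice_ci r b).conv.sq
  have hN : Nice (fun x => ∑ b ∈ F, s b * T μ (T (kap r) (g b)) x) := by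
    have h2 : ∀ (G : Finset ℝ), G ⊆ F →
        Nice (fun x => ∑ b ∈ G, s b * T μ (T (kap r) (g b)) x) := by
      intro G
      induction G using Finset.induction_on with
      | empty =>
        intro _
        simp only [Finset.sum_empty]
        exact ⟨⟨measurable_const, 0, fun x => by simp⟩, integrable_zero _ _ _⟩
      | insert b G hb ih =>
        intro hG
        have hbF : b ∈ F := hG (Finset.mem_insert_self b G)
        have hih := ih (fun x hx => hG (Finset.mem_insert_of_mem hx))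
        have hwN := (hg b hbF).conv (ν := kap r) |>.conv (ν := μ)
        have e : (fun x => ∑ b ∈ insert b G, s b * T μ (T (kap r) (g b)) x) =
            fun x => s b * T μ (T (kap r) (g b)) x + ∑ b ∈ G, s b * T μ (T (kap r) (g b)) x := by
          funext x
          rw [Finset.sum_insert hb]
        rw [e]
        obtain ⟨⟨hm1, c1, hc1⟩, hi1⟩ := hwN
        refine ⟨?_, (hi1.const_mul _).add hih.2⟩
        apply Bd.add _ hih.1
        refine ⟨hm1.const_mul _, ‖s b‖ * c1, fun x => ?_⟩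
        rw [norm_mul]
        exact mul_le_mul_of_nonneg_left (hc1 x) (norm_nonneg _)
    exact h2 F (Finset.Subset.refl _)
  have hint := integral_mono ((integrable_finsetSum F i1).sub (integrable_finsetSum F i2))
    hN.sq hpt
  simp only [Pi.sub_apply] at hint
  rw [integral_sub (integrable_finsetSum F i1) (integrable_finsetSum F i2),
    integral_finsetSum F i1, integral_finsetSum F i2] at hint
  refine le_trans ?_ hint
  rw [Finset.mul_sum, ← Finset.sum_sub_distrib]
  apply Finset.sum_le_sum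
  intro b hb
  have l1 : (m - 2 * κ) * V b ^ 2 ≤ ∫ x, T μ (T (kap r) (g b)) x ^ 2 := by
    have := cell_lower hΩ h1 hκm h0 hov (b := b) (hg b hb |>.conv (ν := kap r)) (hh0 b hb)
      (fun x hx => T_kap_supp hr (hgs b hb) hx)
    rw [integral_T (hg b hb), kap_univ hr, one_mul] at this
    exact this
  have l2 : (m - 2 * κ) * (3 * r) ^ 2 ≤ ∫ x, T μ (ci r b) x ^ 2 := by
    have := cell_lower hΩ h1 hκm h0 hov (b := b) (nice_ci r b) (ci_nonneg r b)
      (fun x hx => indicator_of_notMem hx _)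
    rw [integral_ci hr] at this
    exact this
  have l3 : ∫ x, (V b ^ 2 / r ^ 2) * (T μ (ci r b) x * (3 * r - T μ (ci r b) x)) =
      (V b ^ 2 / r ^ 2) * ((3 * r) * (m * (3 * r)) - ∫ x, T μ (ci r b) x ^ 2) := by
    rw [integral_const_mul]
    congr 1
    have : (fun x => T μ (ci r b) x * (3 * r - T μ (ci r b) x)) =
        fun x => (3 * r) * T μ (ci r b) x - T μ (ci r b) x ^ 2 := by
      funext x
      ring
    rw [this, integral_sub ((nice_ci r b).conv.2.const_mul _) (nice_ci r b).conv.sq,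
      integral_const_mul, integral_T (nice_ci r b), integral_ci hr, hmu]
  rw [l3]
  have l4 : (V b ^ 2 / r ^ 2) * ((3 * r) * (m * (3 * r)) - ∫ x, T μ (ci r b) x ^ 2) ≤
      (V b ^ 2 / r ^ 2) * (18 * κ * r ^ 2) := by
    apply mul_le_mul_of_nonneg_left _ (by positivity)
    nlinarith
  have l5 : (V b ^ 2 / r ^ 2) * (18 * κ * r ^ 2) = 18 * κ * V b ^ 2 := by
    field_simp
  rw [l5] at l4
  change (m - 20 * κ) * V b ^ 2 ≤ _
  nlinarith

theorem key_upper {r : ℝ} (hr : 0 < r) (F : Finset ℝ)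
    (hsep : ∀ b ∈ F, ∀ b' ∈ F, b ≠ b' → 3 * r < |b - b'|)
    (s : ℝ → ℝ) (hs : ∀ b ∈ F, s b ^ 2 = 1) (g : ℝ → ℝ → ℝ) (hg : ∀ b ∈ F, Nice (g b))
    (hg0 : ∀ b ∈ F, ∀ x, 0 ≤ g b x) (hgs : ∀ b ∈ F, ∀ x, r < |x - b| → g b x = 0) :
    ∫ x, T (kap r) (fun x => ∑ b ∈ F, s b * g b x) x ^ 2 ≤
      (3 / r) * ∑ b ∈ F, (∫ x, g b x) ^ 2 := by
  classical
  set V : ℝ → ℝ := fun b => ∫ x, g b x with hV
  have hVnn : ∀ b ∈ F, 0 ≤ V b := fun b hb => integral_nonneg (hg0 b hb)
  have e1 : ∀ x, T (kap r) (fun x => ∑ b ∈ F, s b * g b x) x =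
      ∑ b ∈ F, s b * T (kap r) (g b) x := fun x => T_sum F s g (fun b hb => (hg b hb).1) x
  have hpt : ∀ x, T (kap r) (fun x => ∑ b ∈ F, s b * g b x) x ^ 2 ≤
      ∑ b ∈ F, (V b / r) ^ 2 * ci r b x := by
    intro x
    rw [e1]
    have hterm : ∀ b ∈ F, (s b * T (kap r) (g b) x) ^ 2 ≤ (V b / r) ^ 2 * ci r b x := by
      intro b hb
      by_cases hx : x ∈ cell r b
      · have : ci r b x = 1 := indicator_of_mem hx _
        rw [this, mul_one, mul_pow, hs b hb, one_mul]
        exact pow_le_pow_left₀ (T_kap_nonneg hr (hg0 b hb) x)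
          (T_kap_le hr (hg b hb) (hg0 b hb) x) 2
      · rw [T_kap_supp hr (hgs b hb) hx]
        have := ci_nonneg r b x
        simp only [mul_zero, ne_eq, OfNat.ofNat_ne_zero, not_false_eq_true, zero_pow]
        positivity
    by_cases hex : ∃ b ∈ F, x ∈ cell r b
    · obtain ⟨b, hb, hxb⟩ := hex
      rw [Finset.sum_eq_single_of_mem b hb]
      · refine (hterm b hb).trans ?_
        exact Finset.single_le_sum (f := fun b => (V b / r) ^ 2 * ci r b x)
          (fun b _ => mul_nonneg (sq_nonneg _) (ci_nonneg _ _ _)) hb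
      · intro b' hb' hne
        rw [T_kap_supp hr (hgs b' hb'), mul_zero]
        intro hxb'
        have h3 := hsep b hb b' hb' (Ne.symm hne)
        simp only [cell, mem_Icc] at hxb hxb'
        have : |b - b'| ≤ 3 * r := by
          rw [abs_le]
          constructor <;> linarith [hxb.1, hxb.2, hxb'.1, hxb'.2]
        linarith
    · push Not at hex
      rw [Finset.sum_eq_zero]
      · simp only [ne_eq, OfNat.ofNat_ne_zero, not_false_eq_true, zero_pow]
        exact Finset.sum_nonneg fun b _ => mul_nonneg (sq_nonneg _) (ci_nonneg _ _ _)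
      · intro b hb
        rw [T_kap_supp hr (hgs b hb) (hex b hb), mul_zero]
  have i2 : ∀ b ∈ F, Integrable (fun x => (V b / r) ^ 2 * ci r b x) := fun b _ =>
    (nice_ci r b).2.const_mul _
  have hle : ∫ x, T (kap r) (fun x => ∑ b ∈ F, s b * g b x) x ^ 2 ≤
      ∫ x, ∑ b ∈ F, (V b / r) ^ 2 * ci r b x := by
    apply integral_mono_of_nonneg (ae_of_all _ fun x => sq_nonneg _)
      (integrable_finsetSum F i2) (ae_of_all _ hpt)
  refine hle.trans ?_
  rw [integral_finsetSum F i2, Finset.mul_sum]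
  apply le_of_eq
  refine Finset.sum_congr rfl fun b _ => ?_
  rw [integral_const_mul, integral_ci hr]
  field_simp
  rfl

end Pool.Agent.Helper75.Tile
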