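import Pool.Agent.Helper75.Tile.Key
import Pool.Agent.Helper99.TileWt

set_option autoImplicit false

/-!
# Assembly of the key statement
-/

namespace Pool.Agent.Helper75.Tile

open MeasureTheory Set Filter Topology
open scoped ENNReal NNReal

variable {Ω : Set ℝ}

theorem Nice.indicator {g : ℝ → ℝ} (hg : Nice g) {S : Set ℝ} (hS : MeasurableSet S) :
    Nice (S.indicator g) := by
  obtain ⟨⟨hm, c, hc⟩, hi⟩ := hg
  refine ⟨⟨hm.indicator hS, c, fun x => ?_⟩, hi.indicator hS⟩
  by_cases hx : x ∈ S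
  · rw [indicator_of_mem hx]; exact hc x
  · rw [indicator_of_notMem hx, norm_zero]; exact (norm_nonneg _).trans (hc x)

theorem key_ineq (hΩ : MeasurableSet Ω) (h1 : volume Ω ≠ ∞) {r κ q η Cd : ℝ} (hr : 0 < r)
    (hη : η ≤ r) (h0 : 0 < (volume Ω).toReal) (hκ : 20 * κ ≤ (volume Ω).toReal / 4)
    (hq : 0 ≤ q) (hqr : 12 * q / r ≤ (volume Ω).toReal / 4)
    (hov : ∀ t, |t| ≤ 2 * r → (volume Ω).toReal - κ ≤ (volume (Ω ∩ sh Ω t)).toReal)
    (F : Finset ℝ) (hF : ∀ b ∈ F, ∀ b' ∈ F, b ≠ b' → volume (sh Ω b ∩ sh Ω b') = 0)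
    (hsep : ∀ b ∈ F, ∀ b' ∈ F, b ≠ b' → 3 * r < |b - b'|)
    {D χ : ℝ → ℝ} (hD : Measurable D) (hb : ∀ x, |D x| ≤ Cd) (hχ : Nice χ)
    {W : Set ℝ} (hW : MeasurableSet W) (hχW : ∀ x ∈ W, 0 ≤ χ x)
    (hnear : ∀ x ∈ W, D x ≠ 0 → ∃ b ∈ F, |x - b| ≤ η)
    (hsign : ∀ b ∈ F, ∀ x ∈ W, ∀ y ∈ W, |x - b| ≤ η → |y - b| ≤ η → 0 ≤ D x * D y)
    (hspec : ∫ x, T (volume.restrict Ω) (T (kap r) (fun x => D x * χ x)) x ^ 2 ≤
      q * ∫ x, T (kap r) (fun x => D x * χ x) x ^ 2) {b : ℝ} (hbF : b ∈ F) :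
    (volume Ω).toReal / 2 * (∫ x in W ∩ Icc (b - η) (b + η), |D x| * χ x) ^ 2 ≤
      (4 * q + 2 * (volume Ω).toReal ^ 2) * (Cd ^ 2 * ∫ x in Wᶜ, χ x ^ 2) := by
  classical
  have hfin : IsFiniteMeasure (volume.restrict Ω) := ⟨by
    rw [Measure.restrict_apply_univ]; exact lt_top_iff_ne_top.mpr h1⟩
  set m := (volume Ω).toReal with hm
  have hmu : (volume.restrict Ω).real univ = m := by
    simp [Measure.real, hm]
  set μ := volume.restrict Ω with hμ
  have hCd : 0 ≤ Cd := (abs_nonneg _).trans (hb 0)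
  have hDχ : Nice (fun x => D x * χ x) := by
    obtain ⟨⟨hm, c, hc⟩, hi⟩ := hχ
    refine ⟨⟨hD.mul hm, Cd * c, fun x => ?_⟩, ?_⟩
    · rw [norm_mul]
      exact mul_le_mul (hb x) (hc x) (norm_nonneg _) ((abs_nonneg _).trans (hb 0))
    · exact hi.bdd_mul (c := Cd) hD.aestronglyMeasurable (ae_of_all _ hb)
  have haDχ : Nice (fun x => |D x| * χ x) := by
    obtain ⟨⟨hm, c, hc⟩, hi⟩ := hχ
    refine ⟨⟨hD.abs.mul hm, Cd * c, fun x => ?_⟩, ?_⟩
    · rw [norm_mul]
      refine mul_le_mul ?_ (hc x) (norm_nonneg _) ((abs_nonneg _).trans (hb 0))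
      rw [Real.norm_eq_abs, abs_abs]
      exact hb x
    · refine hi.bdd_mul (c := Cd) hD.abs.aestronglyMeasurable (ae_of_all _ fun x => ?_)
      rw [Real.norm_eq_abs, abs_abs]
      exact hb x
  set I : ℝ → Set ℝ := fun b => W ∩ Icc (b - η) (b + η) with hI
  have hIm : ∀ b, MeasurableSet (I b) := fun b => hW.inter measurableSet_Icc
  have hIiff : ∀ b x, x ∈ I b ↔ x ∈ W ∧ |x - b| ≤ η := by
    intro b x
    simp only [hI, mem_inter_iff, mem_Icc, abs_le]
    constructor
    · rintro ⟨h1, h2, h3⟩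
      exact ⟨h1, by linarith, by linarith⟩
    · rintro ⟨h1, h2, h3⟩
      exact ⟨h1, by linarith, by linarith⟩
  set g : ℝ → ℝ → ℝ := fun b => (I b).indicator (fun x => |D x| * χ x) with hg
  set s : ℝ → ℝ := fun b => if ∃ x ∈ I b, 0 < D x then 1 else -1 with hs
  have hs2 : ∀ b ∈ F, s b ^ 2 = 1 := by
    intro b _
    simp only [hs]
    split_ifs <;> norm_num
  have hsD : ∀ b ∈ F, ∀ x ∈ I b, D x = s b * |D x| := by
    intro b hb x hx
    simp only [hs]
    split_ifs with h
    · obtain ⟨y, hy, hDy⟩ := h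
      have h3 := hsign b hb x ((hIiff b x).1 hx).1 y ((hIiff b y).1 hy).1
        ((hIiff b x).1 hx).2 ((hIiff b y).1 hy).2
      have h4 : 0 ≤ D x := nonneg_of_mul_nonneg_left h3 hDy
      rw [abs_of_nonneg h4, one_mul]
    · push Not at h
      have h4 := h x hx
      rw [abs_of_nonpos h4]
      ring
  have hgN : ∀ b ∈ F, Nice (g b) := fun b _ => haDχ.indicator (hIm b)
  have hg0 : ∀ b ∈ F, ∀ x, 0 ≤ g b x := by
    intro b _ x
    simp only [hg]
    by_cases hx : x ∈ I b
    · rw [indicator_of_mem hx]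
      exact mul_nonneg (abs_nonneg _) (hχW x ((hIiff b x).1 hx).1)
    · rw [indicator_of_notMem hx]
  have hgs : ∀ b ∈ F, ∀ x, r < |x - b| → g b x = 0 := by
    intro b _ x hx
    simp only [hg]
    rw [indicator_of_notMem]
    intro h
    have := ((hIiff b x).1 h).2
    linarith
  have hdec : ∀ x, W.indicator (fun x => D x * χ x) x = ∑ b ∈ F, s b * g b x := by
    intro x
    by_cases hx : x ∈ W
    · rw [indicator_of_mem hx]
      by_cases hDx : D x = 0
      · rw [hDx, zero_mul, Finset.sum_eq_zero]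
        intro b _
        simp only [hg]
        by_cases h : x ∈ I b
        · rw [indicator_of_mem h, hDx, abs_zero, zero_mul, mul_zero]
        · rw [indicator_of_notMem h, mul_zero]
      · obtain ⟨b, hb, hxb⟩ := hnear x hx hDx
        have hxI : x ∈ I b := (hIiff b x).2 ⟨hx, hxb⟩
        rw [Finset.sum_eq_single_of_mem b hb]
        · simp only [hg]
          rw [indicator_of_mem hxI, ← mul_assoc, ← hsD b hb x hxI]
        · intro b' hb' hne
          simp only [hg]
          rw [indicator_of_notMem, mul_zero]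
          intro h
          have h3 := ((hIiff b' x).1 h).2
          have h4 := hsep b' hb' b hb hne
          have h5 : |b' - b| ≤ |x - b'| + |x - b| := by
            have : b' - b = (x - b) - (x - b') := by ring
            rw [this]
            calc |(x - b) - (x - b')| ≤ |x - b| + |x - b'| := abs_sub _ _
              _ = _ := add_comm _ _
          linarith
    · rw [indicator_of_notMem hx, Finset.sum_eq_zero]
      intro b _
      simp only [hg]
      rw [indicator_of_notMem (fun h => hx ((hIiff b x).1 h).1), mul_zero]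
  set GW : ℝ → ℝ := W.indicator (fun x => D x * χ x) with hGW
  set Go : ℝ → ℝ := Wᶜ.indicator (fun x => D x * χ x) with hGo
  have hGWN : Nice GW := hDχ.indicator hW
  have hGoN : Nice Go := hDχ.indicator hW.compl
  have hsum : ∀ x, D x * χ x = GW x + Go x := by
    intro x
    simp only [hGW, hGo]
    by_cases hx : x ∈ W
    · rw [indicator_of_mem hx, indicator_of_notMem (by simpa using hx), add_zero]
    · rw [indicator_of_notMem hx, indicator_of_mem (by simpa using hx), zero_add]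
  have hGWe : GW = fun x => ∑ b ∈ F, s b * g b x := funext hdec
  have hlow := key_lower hΩ h1 hr (by nlinarith) h0 hov F hF s hs2 g hgN hg0 hgs
  have hup := key_upper hr F hsep s hs2 g hgN hg0 hgs
  rw [← hGWe] at hlow hup
  set S := ∑ b ∈ F, (∫ x, g b x) ^ 2 with hS
  have hTH : T (kap r) (fun x => D x * χ x) = fun x => T (kap r) GW x + T (kap r) Go x := by
    have : (fun x => D x * χ x) = fun x => GW x + Go x := funext hsum
    rw [this]
    exact T_add hGWN.1 hGoN.1
  have hTTH : T μ (T (kap r) (fun x => D x * χ x)) =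
      fun x => T μ (T (kap r) GW) x + T μ (T (kap r) Go) x := by
    rw [hTH]
    exact T_add hGWN.1.conv hGoN.1.conv
  have hHN : Nice (T (kap r) (fun x => D x * χ x)) := hDχ.conv
  -- inequalities
  have q1 : ∫ x, T μ (T (kap r) GW) x ^ 2 ≤
      2 * (∫ x, T μ (T (kap r) (fun x => D x * χ x)) x ^ 2) +
        2 * (∫ x, T μ (T (kap r) Go) x ^ 2) := by
    rw [← integral_const_mul, ← integral_const_mul,
      ← integral_add (hHN.conv.sq.const_mul 2) (hGoN.conv.conv.sq.const_mul 2)]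
    apply integral_mono hGWN.conv.conv.sq
      ((hHN.conv.sq.const_mul 2).add (hGoN.conv.conv.sq.const_mul 2))
    intro x
    simp only [Pi.add_apply]
    rw [hTTH]
    simp only
    nlinarith [sq_nonneg (T μ (T (kap r) GW) x + 2 * T μ (T (kap r) Go) x)]
  have q2 : ∫ x, T (kap r) (fun x => D x * χ x) x ^ 2 ≤
      2 * (∫ x, T (kap r) GW x ^ 2) + 2 * (∫ x, T (kap r) Go x ^ 2) := by
    rw [← integral_const_mul, ← integral_const_mul,
      ← integral_add (hGWN.conv.sq.const_mul 2) (hGoN.conv.sq.const_mul 2)]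
    apply integral_mono hHN.sq ((hGWN.conv.sq.const_mul 2).add (hGoN.conv.sq.const_mul 2))
    intro x
    simp only [Pi.add_apply]
    rw [hTH]
    simp only
    nlinarith [sq_nonneg (T (kap r) GW x - T (kap r) Go x)]
  have q3 : ∫ x, T (kap r) Go x ^ 2 ≤ ∫ x, Go x ^ 2 := by
    have := l2_le (ν := kap r) hGoN
    rw [kap_univ hr, one_pow, one_mul] at this
    exact this
  have q4 : ∫ x, T μ (T (kap r) Go) x ^ 2 ≤ m ^ 2 * ∫ x, Go x ^ 2 := by
    have := l2_le (ν := μ) (hGoN.conv (ν := kap r))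
    rw [hmu] at this
    exact this.trans (mul_le_mul_of_nonneg_left q3 (sq_nonneg _))
  have q5 : ∫ x, Go x ^ 2 ≤ Cd ^ 2 * ∫ x in Wᶜ, χ x ^ 2 := by
    rw [← integral_indicator hW.compl, ← integral_const_mul]
    apply integral_mono hGoN.sq
    · have h5 : Integrable (Wᶜ.indicator (fun x => χ x ^ 2)) := hχ.sq.indicator hW.compl
      exact h5.const_mul _
    · intro x
      simp only [hGo]
      by_cases hx : x ∈ Wᶜ
      · rw [indicator_of_mem hx, indicator_of_mem hx, mul_pow]
        apply mul_le_mul_of_nonneg_right _ (sq_nonneg _)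
        exact sq_le_sq' (by linarith [neg_abs_le (D x), hb x]) ((le_abs_self _).trans (hb x))
      · rw [indicator_of_notMem hx, indicator_of_notMem hx]
        simp
  have hSnn : 0 ≤ S := Finset.sum_nonneg fun b _ => sq_nonneg _
  set N := ∫ x, Go x ^ 2 with hN
  have hNnn : 0 ≤ N := integral_nonneg fun x => sq_nonneg _
  have q6 : (m - 20 * κ) * S ≤ 2 * (q * (2 * (3 / r * S) + 2 * N)) + 2 * (m ^ 2 * N) := by
    calc (m - 20 * κ) * S ≤ _ := hlow
      _ ≤ _ := q1
      _ ≤ 2 * (q * (2 * (3 / r * S) + 2 * N)) + 2 * (m ^ 2 * N) := by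
        have a1 : ∫ x, T μ (T (kap r) (fun x => D x * χ x)) x ^ 2 ≤
            q * (2 * (3 / r * S) + 2 * N) := by
          refine hspec.trans (mul_le_mul_of_nonneg_left ?_ hq)
          linarith
        linarith
  have q7 : m / 2 * S ≤ (4 * q + 2 * m ^ 2) * N := by
    have a2 : 2 * (q * (2 * (3 / r * S) + 2 * N)) = (12 * q / r) * S + 4 * q * N := by
      field_simp
      ring
    rw [a2] at q6
    have a3 : (12 * q / r) * S ≤ m / 4 * S := mul_le_mul_of_nonneg_right hqr hSnn
    have a4 : 20 * κ * S ≤ m / 4 * S := mul_le_mul_of_nonneg_right hκ hSnn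
    linarith
  have q8 : (∫ x in W ∩ Icc (b - η) (b + η), |D x| * χ x) ^ 2 ≤ S := by
    have : ∫ x in W ∩ Icc (b - η) (b + η), |D x| * χ x = ∫ x, g b x := by
      simp only [hg]
      rw [integral_indicator (hIm b)]
    rw [this]
    exact Finset.single_le_sum (f := fun b => (∫ x, g b x) ^ 2) (fun b _ => sq_nonneg _) hbF
  calc m / 2 * (∫ x in W ∩ Icc (b - η) (b + η), |D x| * χ x) ^ 2 ≤ m / 2 * S :=
        mul_le_mul_of_nonneg_left q8 (by positivity)
    _ ≤ (4 * q + 2 * m ^ 2) * N := q7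
    _ ≤ _ := mul_le_mul_of_nonneg_left q5 (by positivity)

end Pool.Agent.Helper75.Tile
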