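import Mathlib

set_option autoImplicit false

/-!
# Convolution of bounded functions with finite measures on the line
-/

namespace Pool.Agent.Helper75.Tile

open MeasureTheory Set Filter Topology
open scoped ENNReal NNReal

/-- Convolution of a function with a measure. -/
noncomputable def T {E : Type*} [NormedAddCommGroup E] [NormedSpace ℝ E]
    (ν : Measure ℝ) (g : ℝ → E) (x : ℝ) : E := ∫ y, g (x - y) ∂ν

/-- Bounded measurable functions. -/
def Bd {E : Type*} [NormedAddCommGroup E] [MeasurableSpace E] (g : ℝ → E) : Prop :=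
  Measurable g ∧ ∃ c, ∀ x, ‖g x‖ ≤ c

section general

variable {E : Type*} [NormedAddCommGroup E] [NormedSpace ℝ E] [MeasurableSpace E] [BorelSpace E]
  [SecondCountableTopology E]

theorem Bd.integrable_shift {ν : Measure ℝ} [IsFiniteMeasure ν] {g : ℝ → E} (hg : Bd g) (x : ℝ) :
    Integrable (fun y => g (x - y)) ν := by
  obtain ⟨hm, c, hc⟩ := hg
  refine Integrable.of_bound (hm.comp (measurable_const.sub measurable_id)).aestronglyMeasurable c ?_
  exact ae_of_all _ fun y => hc _

theorem T_norm_le {ν : Measure ℝ} [IsFiniteMeasure ν] {g : ℝ → E} {c : ℝ}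
    (hc : ∀ x, ‖g x‖ ≤ c) (x : ℝ) : ‖T ν g x‖ ≤ c * ν.real univ := by
  unfold T
  exact norm_integral_le_of_norm_le_const (ae_of_all _ fun y => hc _)

theorem T_measurable_param {ν : Measure ℝ} [IsFiniteMeasure ν] {F : ℝ × ℝ → E}
    (hF : Measurable F) : Measurable (fun p : ℝ × ℝ => T ν (fun x => F (p.1, x)) p.2) := by
  unfold T
  have : StronglyMeasurable (fun q : (ℝ × ℝ) × ℝ => F (q.1.1, q.1.2 - q.2)) := by
    apply Measurable.stronglyMeasurable
    fun_prop
  exact (this.integral_prod_right (ν := ν)).measurable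

theorem T_measurable {ν : Measure ℝ} [IsFiniteMeasure ν] {g : ℝ → E}
    (hg : Measurable g) : Measurable (T ν g) := by
  unfold T
  have : StronglyMeasurable (fun q : ℝ × ℝ => g (q.1 - q.2)) := by
    apply Measurable.stronglyMeasurable
    fun_prop
  exact (this.integral_prod_right (ν := ν)).measurable

theorem Bd.conv {ν : Measure ℝ} [IsFiniteMeasure ν] {g : ℝ → E} (hg : Bd g) : Bd (T ν g) := by
  obtain ⟨hm, c, hc⟩ := hg
  exact ⟨T_measurable hm, c * ν.real univ, fun x => T_norm_le hc x⟩

theorem T_comm {ν μ : Measure ℝ} [IsFiniteMeasure ν] [IsFiniteMeasure μ] {g : ℝ → E}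
    (hg : Bd g) : T ν (T μ g) = T μ (T ν g) := by
  funext x
  unfold T
  obtain ⟨hm, c, hc⟩ := hg
  rw [integral_integral_swap]
  · refine integral_congr_ae (ae_of_all _ fun y => ?_)
    refine integral_congr_ae (ae_of_all _ fun z => ?_)
    simp only
    congr 1
    ring
  · refine Integrable.of_bound (C := c) ?_ (ae_of_all _ fun y => ?_)
    · apply Measurable.aestronglyMeasurable
      simp only [Function.uncurry_def]
      fun_prop
    · exact hc _

theorem Bd.add {g h : ℝ → E} (hg : Bd g) (hh : Bd h) : Bd (fun x => g x + h x) := by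
  obtain ⟨hm, c, hc⟩ := hg
  obtain ⟨hm', c', hc'⟩ := hh
  exact ⟨hm.add hm', c + c', fun x => (norm_add_le _ _).trans (add_le_add (hc x) (hc' x))⟩

theorem T_add {ν : Measure ℝ} [IsFiniteMeasure ν] {g h : ℝ → E} (hg : Bd g) (hh : Bd h) :
    T ν (fun x => g x + h x) = fun x => T ν g x + T ν h x := by
  funext x
  unfold T
  exact integral_add (hg.integrable_shift x) (hh.integrable_shift x)

theorem T_smul {𝕜 : Type*} [NormedField 𝕜] [NormedSpace 𝕜 E] [SMulCommClass ℝ 𝕜 E]
    {ν : Measure ℝ} (a : 𝕜) (g : ℝ → E) :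
    T ν (fun x => a • g x) = fun x => a • T ν g x := by
  funext x
  unfold T
  exact integral_smul a _

/-- Exchange of the operator with an integral over a parameter. -/
theorem T_integral {ν ρ : Measure ℝ} [IsFiniteMeasure ν] [IsFiniteMeasure ρ] {F : ℝ × ℝ → E}
    (hF : Measurable F) {c : ℝ} (hc : ∀ p, ‖F p‖ ≤ c) :
    T ν (fun x => ∫ u, F (u, x) ∂ρ) = fun x => ∫ u, T ν (fun x => F (u, x)) x ∂ρ := by
  funext x
  unfold T
  rw [integral_integral_swap]
  refine Integrable.of_bound (C := c) ?_ (ae_of_all _ fun y => ?_)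
  · apply Measurable.aestronglyMeasurable
    simp only [Function.uncurry_def]
    fun_prop
  · exact hc _

end general

end Pool.Agent.Helper75.Tile
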