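import Pool.Agent.Helper75.Tile.Band

set_option autoImplicit false

/-!
# The spectral inequality
-/

namespace Pool.Agent.Helper75.Tile

open MeasureTheory Set Filter Topology
open scoped ENNReal NNReal

/-- Bounded, measurable and integrable real functions. -/
def Nice (g : ℝ → ℝ) : Prop := Bd g ∧ Integrable g

theorem Nice.mul {g h : ℝ → ℝ} (hg : Nice g) (hh : Bd h) : Integrable (fun x => g x * h x) := by
  obtain ⟨hm, c, hc⟩ := hh
  exact hg.2.mul_bdd hm.aestronglyMeasurable (ae_of_all _ hc)

theorem Nice.sq {g : ℝ → ℝ} (hg : Nice g) : Integrable (fun x => g x ^ 2) := by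
  simp only [pow_two]
  exact hg.mul hg.1

theorem Nice.prod_integrable {ν : Measure ℝ} [IsFiniteMeasure ν] {g : ℝ → ℝ} (hg : Nice g) :
    Integrable (fun p : ℝ × ℝ => g (p.1 - p.2)) (volume.prod ν) := by
  rw [integrable_prod_iff']
  · constructor
    · exact ae_of_all _ fun y => hg.2.comp_sub_right y
    · have : (fun y : ℝ => ∫ x, ‖g (x - y)‖) = fun _ => ∫ x, ‖g x‖ := by
        funext y
        exact integral_sub_right_eq_self (fun x => ‖g x‖) y
      simp only [this]
      exact integrable_const _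
  · exact (hg.1.1.comp (measurable_fst.sub measurable_snd)).aestronglyMeasurable

theorem Nice.conv {ν : Measure ℝ} [IsFiniteMeasure ν] {g : ℝ → ℝ} (hg : Nice g) :
    Nice (T ν g) := by
  refine ⟨hg.1.conv, ?_⟩
  exact hg.prod_integrable.integral_prod_left

theorem T_neg_apply {ν : Measure ℝ} {g : ℝ → ℝ} (x : ℝ) :
    T (ν.map (fun y => -y)) g x = ∫ y, g (x + y) ∂ν := by
  unfold T
  have := (Homeomorph.neg ℝ).measurableEmbedding.integral_map (μ := ν) (fun y => g (x - y))
  simp only [Homeomorph.coe_neg] at this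
  have e : (fun y : ℝ => -y) = Neg.neg := rfl
  rw [e, this]
  simp

theorem adjoint {ν : Measure ℝ} [IsFiniteMeasure ν] {g h : ℝ → ℝ} (hg : Nice g) (hh : Bd h) :
    ∫ x, T ν g x * h x = ∫ x, g x * T (ν.map (fun y => -y)) h x := by
  obtain ⟨hm, c, hc⟩ := hh
  have h1 : ∀ x, T ν g x * h x = ∫ y, g (x - y) * h x ∂ν := by
    intro x
    unfold T
    rw [integral_mul_const]
  have h2 : ∀ x, g x * T (ν.map (fun y => -y)) h x = ∫ y, g x * h (x + y) ∂ν := by
    intro x
    rw [T_neg_apply, integral_const_mul]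
  simp_rw [h1, h2]
  rw [integral_integral_swap, integral_integral_swap (f := fun x y => g x * h (x + y))]
  · refine integral_congr_ae (ae_of_all _ fun y => ?_)
    simp only
    have := integral_add_right_eq_self (μ := (volume : Measure ℝ)) (fun x => g (x - y) * h x) y
    rw [← this]
    refine integral_congr_ae (ae_of_all _ fun x => ?_)
    simp
  · have : Integrable (fun p : ℝ × ℝ => g p.1) (volume.prod ν) := by
      have := hg.2.mul_prod (integrable_const (1 : ℝ) (μ := ν))
      simpa using this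
    refine this.mul_bdd (c := c) ?_ (ae_of_all _ fun p => hc _)
    exact (hm.comp (measurable_fst.add measurable_snd)).aestronglyMeasurable
  · refine hg.prod_integrable.mul_bdd (c := c) ?_ (ae_of_all _ fun p => hc _)
    exact (hm.comp measurable_fst).aestronglyMeasurable

theorem cs {f g : ℝ → ℝ} (hf : Nice f) (hg : Nice g) :
    (∫ x, f x * g x) ^ 2 ≤ (∫ x, f x ^ 2) * ∫ x, g x ^ 2 := by
  have h1 := hf.sq
  have h2 := hg.sq
  have h3 := hf.mul hg.1
  have key : ∀ t : ℝ, 0 ≤ (∫ x, g x ^ 2) * (t * t) + (2 * ∫ x, f x * g x) * t +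
      ∫ x, f x ^ 2 := by
    intro t
    have : (∫ x, g x ^ 2) * (t * t) + (2 * ∫ x, f x * g x) * t + ∫ x, f x ^ 2 =
        ∫ x, (f x + t * g x) ^ 2 := by
      have e : (fun x => (f x + t * g x) ^ 2) =
          fun x => (t * t) * g x ^ 2 + (2 * t) * (f x * g x) + f x ^ 2 := by
        funext x
        ring
      have i1 : Integrable (fun x => (t * t) * g x ^ 2) := h2.const_mul _
      have i2 : Integrable (fun x => (2 * t) * (f x * g x)) := h3.const_mul _
      have i3 : Integrable (fun x => (t * t) * g x ^ 2 + (2 * t) * (f x * g x)) := i1.add i2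
      rw [e, integral_add i3 h1, integral_add i1 i2, integral_const_mul, integral_const_mul]
      ring
    rw [this]
    exact integral_nonneg fun x => sq_nonneg _
  have := discrim_le_zero key
  unfold discrim at this
  nlinarith

theorem spec_ineq {μ : Measure ℝ} [IsFiniteMeasure μ] {H : ℝ → ℝ} (hH : Nice H) {C0 q : ℝ}
    (hq : 0 ≤ q)
    (hb : ∀ n x, |(fun h => T (μ.map (fun y => -y)) (T μ h))^[n] H x| ≤ C0 * q ^ n) :
    ∫ x, T μ H x ^ 2 ≤ q * ∫ x, H x ^ 2 := by
  set A : (ℝ → ℝ) → (ℝ → ℝ) := fun h => T (μ.map (fun y => -y)) (T μ h) with hA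
  have hfin : IsFiniteMeasure (μ.map (fun y => -y)) := by infer_instance
  have hN : ∀ n, Nice (A^[n] H) := by
    intro n
    induction n with
    | zero => exact hH
    | succ n ih =>
      rw [Function.iterate_succ_apply']
      exact ih.conv.conv
  have hsym : ∀ g h : ℝ → ℝ, Nice g → Nice h → ∫ x, g x * A h x = ∫ x, T μ g x * T μ h x := by
    intro g h hg hh
    rw [adjoint hg hh.1.conv]
  have hsym2 : ∀ g h : ℝ → ℝ, Nice g → Nice h → ∫ x, g x * A h x = ∫ x, A g x * h x := by
    intro g h hg hh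
    rw [hsym g h hg hh]
    have e1 : ∫ x, A g x * h x = ∫ x, h x * A g x := by simp_rw [mul_comm]
    rw [e1, hsym h g hh hg]
    simp_rw [mul_comm]
  set b : ℕ → ℝ := fun n => ∫ x, A^[n] H x * H x with hbdef
  have hij : ∀ j i, ∫ x, A^[i] H x * A^[j] H x = b (i + j) := by
    intro j
    induction j with
    | zero => intro i; simp [hbdef]
    | succ j ih =>
      intro i
      have e1 : A^[j + 1] H = A (A^[j] H) := Function.iterate_succ_apply' _ _ _
      rw [e1, hsym2 _ _ (hN i) (hN j)]
      have e2 : A (A^[i] H) = A^[i + 1] H := (Function.iterate_succ_apply' _ _ _).symm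
      rw [e2, ih (i + 1)]
      congr 1
      omega
  have hb0 : b 0 = ∫ x, H x ^ 2 := by
    simp only [hbdef, Function.iterate_zero, id, pow_two]
  have hb1 : b 1 = ∫ x, T μ H x ^ 2 := by
    have e1 : b 1 = ∫ x, H x * A H x := by
      simp only [hbdef, Function.iterate_one]
      simp_rw [mul_comm]
    rw [e1, hsym H H hH hH]
    simp only [pow_two]
  have hcs : ∀ n, b n ^ 2 ≤ b 0 * b (2 * n) := by
    intro n
    have := cs (hN n) hH
    have e : ∫ x, (A^[n] H x) ^ 2 = b (2 * n) := by
      rw [two_mul, ← hij n n]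
      simp only [pow_two]
    rw [e, ← hb0] at this
    linarith [this, mul_comm (b 0) (b (2 * n))]
  have hub : ∀ n, b n ≤ (C0 * ∫ x, |H x|) * q ^ n := by
    intro n
    calc b n ≤ ∫ x, |A^[n] H x * H x| := by
          apply integral_mono ((hN n).mul hH.1)
          · exact ((hN n).mul hH.1).abs
          · intro x
            exact le_abs_self _
      _ ≤ ∫ x, (C0 * q ^ n) * |H x| := by
          apply integral_mono ((hN n).mul hH.1).abs (hH.2.abs.const_mul _)
          intro x
          simp only [abs_mul]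
          exact mul_le_mul_of_nonneg_right (hb n x) (abs_nonneg _)
      _ = _ := by rw [integral_const_mul]; ring
  have hb0' : 0 ≤ b 0 := by rw [hb0]; exact integral_nonneg fun x => sq_nonneg _
  have hb1' : 0 ≤ b 1 := by rw [hb1]; exact integral_nonneg fun x => sq_nonneg _
  rw [← hb0, ← hb1]
  rcases hb0'.eq_or_lt with h0 | h0
  · have := hcs 1
    rw [← h0, zero_mul] at this
    have : b 1 = 0 := by nlinarith
    rw [this, ← h0, mul_zero]
  by_contra hcon
  rw [not_le] at hcon
  set ρ : ℝ := b 1 / b 0 with hρ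
  have hρ0 : 0 ≤ ρ := by positivity
  have hρq : q < ρ := by
    rw [hρ, lt_div_iff₀ h0]
    exact hcon
  have hpow : ∀ j : ℕ, ρ ^ (2 ^ j) ≤ b (2 ^ j) / b 0 := by
    intro j
    induction j with
    | zero => simp [hρ]
    | succ j ih =>
      have e : ρ ^ (2 ^ (j + 1)) = (ρ ^ (2 ^ j)) ^ 2 := by
        rw [← pow_mul]
        congr 1
      rw [e]
      calc (ρ ^ (2 ^ j)) ^ 2 ≤ (b (2 ^ j) / b 0) ^ 2 := pow_le_pow_left₀ (by positivity) ih 2
        _ ≤ b (2 ^ (j + 1)) / b 0 := by
          have h2 := hcs (2 ^ j)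
          have e2 : 2 * 2 ^ j = 2 ^ (j + 1) := by ring
          rw [e2] at h2
          rw [div_pow, div_le_div_iff₀ (by positivity) h0]
          nlinarith
  have hfinal : ∀ j : ℕ, ρ ^ (2 ^ j) ≤ ((C0 * ∫ x, |H x|) / b 0) * q ^ (2 ^ j) := by
    intro j
    refine (hpow j).trans ?_
    rw [div_le_iff₀ h0]
    calc b (2 ^ j) ≤ (C0 * ∫ x, |H x|) * q ^ (2 ^ j) := hub _
      _ = _ := by field_simp
  set C1 : ℝ := (C0 * ∫ x, |H x|) / b 0 with hC1
  rcases hq.eq_or_lt with hq0 | hq0
  · have := hfinal 0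
    rw [← hq0] at this hρq
    simp at this
    linarith
  · have hr : 1 < ρ / q := by rwa [one_lt_div hq0]
    have hlim := tendsto_pow_atTop_atTop_of_one_lt hr
    obtain ⟨n, hn⟩ := (hlim.eventually_gt_atTop C1).exists_forall_of_atTop
    have h3 := hn (2 ^ n) (Nat.lt_two_pow_self).le
    have h4 := hfinal n
    rw [div_pow, lt_div_iff₀ (by positivity)] at h3
    linarith

end Pool.Agent.Helper75.Tile
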