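import Pool.Agent.Helper75.Tile.Op
import Pool.Agent.Helper75.Tile.Defs

set_option autoImplicit false

/-!
# Sup-norm decay of the iterates on modulated annihilated functions
-/

namespace Pool.Agent.Helper75.Tile

open MeasureTheory Set Filter Topology Complex
open scoped ENNReal NNReal

/-- The character `x ↦ e^{itx}`. -/
noncomputable def ch (t x : ℝ) : ℂ := cexp (t * x * I)

theorem norm_ch (t x : ℝ) : ‖ch t x‖ = 1 := by
  unfold ch
  have : ((t : ℂ) * x * I) = ((t * x : ℝ) : ℂ) * I := by push_cast; ring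
  rw [this]
  exact Complex.norm_exp_ofReal_mul_I _

theorem ch_add (s t x : ℝ) : ch (s + t) x = ch s x * ch t x := by
  unfold ch
  rw [← Complex.exp_add]
  congr 1
  push_cast
  ring

theorem ch_sub (t x y : ℝ) : ch t (x - y) = ch t x * ch (-t) y := by
  unfold ch
  rw [← Complex.exp_add]
  congr 1
  push_cast
  ring

theorem ch_measurable : Measurable (fun p : ℝ × ℝ => ch p.1 p.2) := by
  unfold ch
  fun_prop

theorem ch_zero (x : ℝ) : ch 0 x = 1 := by
  unfold ch
  simp

/-- `g = e_t E` with `E` bounded by `b` and annihilated by convolution with `μ`. -/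
def InK (μ : Measure ℝ) (t b : ℝ) (g : ℝ → ℂ) : Prop :=
  ∃ E : ℝ → ℂ, Measurable E ∧ (∀ x, ‖E x‖ ≤ b) ∧ (∀ x, T μ E x = 0) ∧ g = fun x => ch t x * E x

theorem InK.norm_le {μ : Measure ℝ} {t b : ℝ} {g : ℝ → ℂ} (h : InK μ t b g) (x : ℝ) :
    ‖g x‖ ≤ b := by
  obtain ⟨E, -, hb, -, rfl⟩ := h
  simp only [norm_mul, norm_ch, one_mul]
  exact hb x

theorem modT_measurable {ν : Measure ℝ} [IsFiniteMeasure ν] {t : ℝ} {E : ℝ → ℂ}
    (hE : Measurable E) : Measurable (fun x => ∫ y, ch (-t) y * E (x - y) ∂ν) := by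
  have : StronglyMeasurable (fun q : ℝ × ℝ => ch (-t) q.2 * E (q.1 - q.2)) := by
    apply Measurable.stronglyMeasurable
    have h1 : Measurable (fun q : ℝ × ℝ => ch (-t) q.2) :=
      ch_measurable.comp (measurable_const.prodMk measurable_snd)
    have h2 : Measurable (fun q : ℝ × ℝ => E (q.1 - q.2)) := by fun_prop
    exact h1.mul h2
  exact (this.integral_prod_right (ν := ν)).measurable

theorem T_mod {ν : Measure ℝ} {t : ℝ} {E : ℝ → ℂ} (x : ℝ) :
    T ν (fun x => ch t x * E x) x = ch t x * ∫ y, ch (-t) y * E (x - y) ∂ν := by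
  unfold T
  rw [← integral_const_mul]
  refine integral_congr_ae (ae_of_all _ fun y => ?_)
  simp only
  rw [ch_sub]
  ring

theorem T_modT {μ ν : Measure ℝ} [IsFiniteMeasure μ] [IsFiniteMeasure ν] {t b : ℝ} {E : ℝ → ℂ}
    (hE : Measurable E) (hb : ∀ x, ‖E x‖ ≤ b) (h0 : ∀ x, T μ E x = 0) (x : ℝ) :
    T μ (fun x => ∫ y, ch (-t) y * E (x - y) ∂ν) x = 0 := by
  unfold T
  rw [integral_integral_swap]
  · have : ∀ y, ∫ z, ch (-t) y * E (x - z - y) ∂μ = 0 := by
      intro y
      rw [integral_const_mul]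
      have h := h0 (x - y)
      unfold T at h
      have h2 : (fun z => E (x - z - y)) = fun z => E (x - y - z) := by
        funext z
        congr 1
        ring
      rw [h2, h, mul_zero]
    simp [this]
  · refine Integrable.of_bound (C := b) ?_ (ae_of_all _ fun p => ?_)
    · apply Measurable.aestronglyMeasurable
      simp only [Function.uncurry_def]
      have h1 : Measurable (fun q : ℝ × ℝ => ch (-t) q.2) :=
        ch_measurable.comp (measurable_const.prodMk measurable_snd)
      have h2 : Measurable (fun q : ℝ × ℝ => E (x - q.1 - q.2)) := by fun_prop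
      exact h1.mul h2
    · simp only [Function.uncurry_def, norm_mul, norm_ch, one_mul]
      exact hb _

theorem InK.conv {μ ν : Measure ℝ} [IsFiniteMeasure μ] [IsFiniteMeasure ν] {t b : ℝ} {g : ℝ → ℂ}
    (h : InK μ t b g) : InK μ t (b * ν.real univ) (T ν g) := by
  obtain ⟨E, hE, hb, h0, rfl⟩ := h
  refine ⟨fun x => ∫ y, ch (-t) y * E (x - y) ∂ν, modT_measurable hE, fun x => ?_,
    T_modT hE hb h0, ?_⟩
  · refine norm_integral_le_of_norm_le_const (ae_of_all _ fun y => ?_)
    rw [norm_mul, norm_ch, one_mul]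
    exact hb _
  · funext x
    exact T_mod x

theorem InK.conv_self {μ : Measure ℝ} [IsFiniteMeasure μ] {t b w : ℝ} {g : ℝ → ℂ}
    (h : InK μ t b g) (hw : ∫ y, ‖ch (-t) y - 1‖ ∂μ ≤ w) :
    InK μ t (b * w) (T μ g) := by
  obtain ⟨E, hE, hb, h0, rfl⟩ := h
  have hb0 : 0 ≤ b := (norm_nonneg _).trans (hb 0)
  refine ⟨fun x => ∫ y, ch (-t) y * E (x - y) ∂μ, modT_measurable hE, fun x => ?_,
    T_modT hE hb h0, ?_⟩
  · have hi1 : Integrable (fun y => ch (-t) y * E (x - y)) μ := by
      refine Integrable.of_bound (C := b) ?_ (ae_of_all _ fun p => ?_)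
      · apply Measurable.aestronglyMeasurable
        have h1 : Measurable (fun q : ℝ => ch (-t) q) :=
          ch_measurable.comp (measurable_const.prodMk measurable_id)
        have h2 : Measurable (fun q : ℝ => E (x - q)) := by fun_prop
        exact h1.mul h2
      · rw [norm_mul, norm_ch, one_mul]
        exact hb _
    have hi2 : Integrable (fun y => E (x - y)) μ := by
      refine Integrable.of_bound (C := b) ?_ (ae_of_all _ fun p => hb _)
      have h2 : Measurable (fun q : ℝ => E (x - q)) := by fun_prop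
      exact h2.aestronglyMeasurable
    have hz : ∫ y, E (x - y) ∂μ = 0 := h0 x
    have he : ∫ y, ch (-t) y * E (x - y) ∂μ = ∫ y, (ch (-t) y - 1) * E (x - y) ∂μ := by
      have : (fun y => (ch (-t) y - 1) * E (x - y)) =
          fun y => ch (-t) y * E (x - y) - E (x - y) := by
        funext y
        ring
      rw [this, integral_sub hi1 hi2, hz, sub_zero]
    simp only
    rw [he]
    calc ‖∫ y, (ch (-t) y - 1) * E (x - y) ∂μ‖ ≤ ∫ y, ‖(ch (-t) y - 1) * E (x - y)‖ ∂μ :=
          norm_integral_le_integral_norm _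
      _ ≤ ∫ y, ‖ch (-t) y - 1‖ * b ∂μ := by
          apply integral_mono_of_nonneg (ae_of_all _ fun y => norm_nonneg _)
          · refine Integrable.of_bound (C := 2 * b) ?_ (ae_of_all _ fun p => ?_)
            · apply Measurable.aestronglyMeasurable
              have h1 : Measurable (fun q : ℝ => ch (-t) q) :=
                ch_measurable.comp (measurable_const.prodMk measurable_id)
              exact ((h1.sub measurable_const).norm).mul_const b
            · rw [Real.norm_eq_abs, abs_mul, abs_of_nonneg hb0, abs_of_nonneg (norm_nonneg _)]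
              apply mul_le_mul_of_nonneg_right _ hb0
              calc ‖ch (-t) p - 1‖ ≤ ‖ch (-t) p‖ + ‖(1 : ℂ)‖ := norm_sub_le _ _
                _ = 2 := by rw [norm_ch, norm_one]; norm_num
          · refine ae_of_all _ fun y => ?_
            simp only [norm_mul]
            exact mul_le_mul_of_nonneg_left (hb _) (norm_nonneg _)
      _ = (∫ y, ‖ch (-t) y - 1‖ ∂μ) * b := integral_mul_const _ _
      _ ≤ w * b := mul_le_mul_of_nonneg_right hw hb0
      _ = b * w := mul_comm _ _
  · funext x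
    exact T_mod x

/-- The iterates `(C' C)^n K`. -/
noncomputable def Phi {E : Type*} [NormedAddCommGroup E] [NormedSpace ℝ E]
    (μ μ' κ : Measure ℝ) (n : ℕ) (g : ℝ → E) : ℝ → E :=
  (fun h => T μ' (T μ h))^[n] (T κ g)

theorem InK.iter {μ μ' κ : Measure ℝ} [IsFiniteMeasure μ] [IsFiniteMeasure μ'] [IsFiniteMeasure κ]
    {t b w : ℝ} {g : ℝ → ℂ} (h : InK μ t b g) (hκ : κ.real univ = 1)
    (hw : ∫ y, ‖ch (-t) y - 1‖ ∂μ ≤ w) (n : ℕ) :
    InK μ t (b * (μ'.real univ * w) ^ n) (Phi μ μ' κ n g) := by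
  induction n with
  | zero =>
    have := h.conv (ν := κ)
    rw [hκ, mul_one] at this
    simpa [Phi] using this
  | succ n ih =>
    have h1 := (ih.conv_self hw).conv (ν := μ')
    have h2 : Phi μ μ' κ (n + 1) g = T μ' (T μ (Phi μ μ' κ n g)) := by
      simp only [Phi, Function.iterate_succ_apply']
    rw [h2]
    convert h1 using 1
    rw [pow_succ]
    ring

section lin

variable {E : Type*} [NormedAddCommGroup E] [NormedSpace ℝ E] [MeasurableSpace E] [BorelSpace E]
  [SecondCountableTopology E]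

theorem Phi_succ (μ μ' κ : Measure ℝ) (n : ℕ) (g : ℝ → E) :
    Phi μ μ' κ (n + 1) g = T μ' (T μ (Phi μ μ' κ n g)) := by
  simp only [Phi, Function.iterate_succ_apply']

theorem Phi_zero (μ μ' κ : Measure ℝ) (g : ℝ → E) :
    Phi μ μ' κ 0 g = T κ g := by
  simp only [Phi, Function.iterate_zero, id]

variable {μ μ' κ : Measure ℝ} [IsFiniteMeasure μ] [IsFiniteMeasure μ'] [IsFiniteMeasure κ]

theorem Bd.iter {g : ℝ → E} (hg : Bd g) (n : ℕ) : Bd (Phi μ μ' κ n g) := by
  induction n with
  | zero => rw [Phi_zero]; exact hg.conv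
  | succ n ih => rw [Phi_succ]; exact ih.conv.conv

theorem Phi_add {g h : ℝ → E} (hg : Bd g) (hh : Bd h) (n : ℕ) :
    Phi μ μ' κ n (fun x => g x + h x) = fun x => Phi μ μ' κ n g x + Phi μ μ' κ n h x := by
  induction n with
  | zero => simp only [Phi_zero]; exact T_add hg hh
  | succ n ih =>
    simp only [Phi_succ]
    rw [ih, T_add (hg.iter n) (hh.iter n), T_add (hg.iter n).conv (hh.iter n).conv]

theorem Phi_smul {𝕜 : Type*} [NormedField 𝕜] [NormedSpace 𝕜 E] [SMulCommClass ℝ 𝕜 E]
    (a : 𝕜) (g : ℝ → E) (n : ℕ) :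
    Phi μ μ' κ n (fun x => a • g x) = fun x => a • Phi μ μ' κ n g x := by
  induction n with
  | zero => simp only [Phi_zero]; exact T_smul a g
  | succ n ih =>
    simp only [Phi_succ]
    rw [ih, T_smul, T_smul]

theorem Phi_param {F : ℝ × ℝ → E} (hF : Measurable F) {c : ℝ} (hc : ∀ p, ‖F p‖ ≤ c) (n : ℕ) :
    Measurable (fun p : ℝ × ℝ => Phi μ μ' κ n (fun x => F (p.1, x)) p.2) ∧
    ∃ c', ∀ p : ℝ × ℝ, ‖Phi μ μ' κ n (fun x => F (p.1, x)) p.2‖ ≤ c' := by
  induction n with
  | zero =>
    simp only [Phi_zero]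
    exact ⟨T_measurable_param hF, _, fun p => T_norm_le (fun x => hc _) _⟩
  | succ n ih =>
    obtain ⟨hm, c', hc'⟩ := ih
    simp only [Phi_succ]
    have h1 := T_measurable_param (ν := μ) hm
    have h1c : ∀ p : ℝ × ℝ, ‖T μ (fun x => Phi μ μ' κ n (fun x => F (p.1, x)) x) p.2‖
        ≤ c' * μ.real univ := fun p => T_norm_le (fun x => hc' (p.1, x)) _
    have h2 := T_measurable_param (ν := μ') h1
    exact ⟨h2, _, fun p => T_norm_le (fun x => h1c (p.1, x)) _⟩

theorem Phi_integral {ρ : Measure ℝ} [IsFiniteMeasure ρ] {F : ℝ × ℝ → E}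
    (hF : Measurable F) {c : ℝ} (hc : ∀ p, ‖F p‖ ≤ c) (n : ℕ) :
    Phi μ μ' κ n (fun x => ∫ u, F (u, x) ∂ρ) =
      fun x => ∫ u, Phi μ μ' κ n (fun x => F (u, x)) x ∂ρ := by
  induction n with
  | zero =>
    simp only [Phi_zero]
    exact T_integral hF hc
  | succ n ih =>
    obtain ⟨hm, c', hc'⟩ := Phi_param (μ := μ) (μ' := μ') (κ := κ) hF hc n
    simp only [Phi_succ]
    rw [ih]
    have e1 := T_integral (ν := μ) (ρ := ρ) hm hc'
    simp only at e1
    rw [e1]
    have h1 := T_measurable_param (ν := μ) hm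
    have h1c : ∀ p : ℝ × ℝ, ‖T μ (fun x => Phi μ μ' κ n (fun x => F (p.1, x)) x) p.2‖
        ≤ c' * μ.real univ := fun p => T_norm_le (fun x => hc' (p.1, x)) _
    have e2 := T_integral (ν := μ') (ρ := ρ) h1 h1c
    simp only at e2
    exact e2

end lin

end Pool.Agent.Helper75.Tile
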